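import Mathlib

set_option autoImplicit false

namespace Pool.Agent.Helper78

open Polynomial

variable {H : Type*} [NormedAddCommGroup H] [InnerProductSpace ℂ H] [CompleteSpace H]

theorem inner_sa (t : H →L[ℂ] H) (ht : IsSelfAdjoint t) (v w : H) :
    inner ℂ (t v) w = inner ℂ v (t w) := by
  have := ContinuousLinearMap.adjoint_inner_left t w v
  rw [← this]
  rw [show ContinuousLinearMap.adjoint t = t from ht]

theorem inner_self_re (v : H) : (inner ℂ v v).re = ‖v‖ ^ 2 := by
  rw [inner_self_eq_norm_sq_to_K]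
  change (((‖v‖ : ℝ) : ℂ) ^ 2).re = ‖v‖ ^ 2
  rw [← Complex.ofReal_pow]; exact Complex.ofReal_re _

theorem sa_smul (t : H →L[ℂ] H) (ht : IsSelfAdjoint t) (c : ℝ) : IsSelfAdjoint (c • t) := by
  rw [IsSelfAdjoint, star_smul, ht.star_eq]
  simp

theorem gap_of_ineq (t : H →L[ℂ] H) (ht : IsSelfAdjoint t)
    (hpos : ∀ v, 0 ≤ (inner ℂ (t v) v).re) (c : ℝ)
    (hc : ∀ v, c * (inner ℂ (t v) v).re ≤ ‖t v‖ ^ 2) :
    spectrum ℂ t ⊆ {z : ℂ | z = 0 ∨ (z.im = 0 ∧ c ≤ z.re)} := by
  intro z hz
  have him : z.im = 0 := ht.im_eq_zero_of_mem_spectrum hz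
  have hzr : z = ((z.re : ℝ) : ℂ) := by
    apply Complex.ext <;> simp [him]
  have h0 : (0 : H →L[ℂ] H) ≤ t := by
    rw [ContinuousLinearMap.nonneg_iff_isPositive]
    rw [ContinuousLinearMap.isPositive_def']
    exact ⟨ht, hpos⟩
  have hxr : z.re ∈ spectrum ℝ t := by
    rw [← spectrum.algebraMap_mem_iff ℂ]
    change ((z.re : ℝ) : ℂ) ∈ _
    rw [← hzr]; exact hz
  have hx0 : 0 ≤ z.re := spectrum_nonneg_of_nonneg h0 hxr
  have hs : IsSelfAdjoint (t ^ 2 - c • t) := (ht.pow 2).sub (sa_smul t ht c)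
  have h1 : (0 : H →L[ℂ] H) ≤ t ^ 2 - c • t := by
    rw [ContinuousLinearMap.nonneg_iff_isPositive]
    rw [ContinuousLinearMap.isPositive_def']
    refine ⟨hs, ?_⟩
    intro v
    rw [ContinuousLinearMap.reApplyInnerSelf]
    have e1 : (t ^ 2 - c • t) v = t (t v) - c • t v := by
      rw [pow_two]; rfl
    rw [e1, inner_sub_left, inner_sa t ht (t v) v]
    have e3 : inner ℂ (c • t v) v = (c : ℂ) * inner ℂ (t v) v := by
      rw [← Complex.coe_smul, inner_smul_left]; simp
    rw [e3]
    have h5 := hc v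
    have h6 := inner_self_re (t v)
    have h7 : RCLike.re (inner ℂ (t v) (t v) - (c : ℂ) * inner ℂ (t v) v)
      = (inner ℂ (t v) (t v)).re - c * (inner ℂ (t v) v).re := by
      simp
    rw [h7, h6]
    linarith
  have h2 : (z.re) ^ 2 - c * z.re ∈ spectrum ℝ (t ^ 2 - c • t) := by
    have := spectrum.subset_polynomial_aeval t ((X : ℝ[X]) ^ 2 - C c * X)
    have h := this ⟨z.re, hxr, rfl⟩
    simpa [Algebra.smul_def] using h
  have h3 : 0 ≤ (z.re) ^ 2 - c * z.re := spectrum_nonneg_of_nonneg h1 h2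
  by_cases hz0 : z.re = 0
  · left; rw [hzr, hz0]; simp
  · right
    refine ⟨him, ?_⟩
    have hpos' : 0 < z.re := lt_of_le_of_ne hx0 (Ne.symm hz0)
    nlinarith

theorem form_of_gap (t : H →L[ℂ] H) (ht : IsSelfAdjoint t) (c : ℝ) (hc : 0 < c)
    (hs : spectrum ℂ t ⊆ {z : ℂ | z = 0 ∨ (z.im = 0 ∧ c ≤ z.re)})
    (v : H) (hv : ∀ u, t u = 0 → inner ℂ u v = 0) :
    c * ‖v‖ ^ 2 ≤ (inner ℂ (t v) v).re := by
  have hsr : ∀ x ∈ spectrum ℝ t, x = 0 ∨ c ≤ x := by
    intro x hx
    have h1 : ((x : ℝ) : ℂ) ∈ spectrum ℂ t := by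
      have := (spectrum.algebraMap_mem_iff ℂ (r := x) (a := t)).2 hx
      exact this
    rcases hs h1 with h | h
    · left; exact_mod_cast h
    · right; simpa using h.2
  let g : ℝ → ℝ := fun x => min 1 (x / c)
  have hg : Continuous g := by fun_prop
  have hg0 : g 0 = 0 := by simp [g]
  have hg1 : ∀ x, c ≤ x → g x = 1 := by
    intro x hx
    simp only [g]
    apply min_eq_left
    rw [le_div_iff₀ hc]; linarith
  set p : H →L[ℂ] H := cfc g t with hp
  have hpsa : IsSelfAdjoint p := cfc_predicate g t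
  have hpp : p * p = p := by
    rw [hp, ← cfc_mul g g t (hg.continuousOn) (hg.continuousOn)]
    apply cfc_congr
    intro x hx
    rcases hsr x hx with h | h
    · simp [h, hg0]
    · simp [hg1 x h]
  have htp : t * p = t := by
    have h1 : cfc (fun x : ℝ => x * g x) t = t * p := by
      rw [cfc_mul (fun x : ℝ => x) g t (by fun_prop) (hg.continuousOn), cfc_id' ℝ t]
    rw [← h1]
    conv_rhs => rw [← cfc_id' ℝ t]
    apply cfc_congr
    intro x hx
    rcases hsr x hx with h | h
    · simp [h]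
    · simp [hg1 x h]
  have hcp : c • p ≤ t := by
    have h1 : cfc (fun x : ℝ => c * g x) t = c • p := by
      rw [cfc_const_mul c g t (hg.continuousOn)]
    rw [← h1]
    conv_rhs => rw [← cfc_id' ℝ t]
    apply cfc_mono
    · intro x hx
      rcases hsr x hx with h | h
      · simp [h, hg0]
      · simp [hg1 x h, h]
    · exact (hg.const_smul c).continuousOn
    · exact continuousOn_id
  have hker : t (v - p v) = 0 := by
    rw [map_sub]
    have : t (p v) = (t * p) v := rfl
    rw [this, htp, sub_self]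
  have h2 := hv _ hker
  have h3 : v - p v = 0 := by
    have h4 : inner ℂ (v - p v) (p v) = 0 := by
      rw [← inner_sa p hpsa, map_sub]
      have : p (p v) = (p * p) v := rfl
      rw [this, hpp, sub_self, inner_zero_left]
    have h5 : inner ℂ (v - p v) (v - p v) = 0 := by
      rw [inner_sub_right, h2, h4, sub_zero]
    exact inner_self_eq_zero.1 h5
  have h4 : p v = v := by
    rw [sub_eq_zero] at h3; exact h3.symm
  have h5 : (t - c • p).IsPositive := (ContinuousLinearMap.le_def _ _).1 hcp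
  have h6 := h5.re_inner_nonneg_left v
  have h7 : (t - c • p) v = t v - c • v := by
    have : (t - c • p) v = t v - c • p v := rfl
    rw [this, h4]
  rw [h7, inner_sub_left] at h6
  have e3 : inner ℂ (c • v) v = (c : ℂ) * inner ℂ v v := by
    rw [← Complex.coe_smul, inner_smul_left]; simp
  rw [e3] at h6
  have h8 : RCLike.re (inner ℂ (t v) v - (c : ℂ) * inner ℂ v v)
      = (inner ℂ (t v) v).re - c * (inner ℂ v v).re := by
      simp
  rw [h8, inner_self_re] at h6
  linarith

end Pool.Agent.Helper78
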