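import Mathlib
import Pool.Agent.Helper78.SpecGap

set_option autoImplicit false
set_option linter.unusedSectionVars false
set_option linter.unusedSimpArgs false

namespace Pool.Agent.Helper78

variable {H : Type*} [NormedAddCommGroup H] [InnerProductSpace ℂ H] [CompleteSpace H]

/-- Real part of the inner product. -/
noncomputable def rip (v w : H) : ℝ := (inner ℂ v w).re

theorem rip_add_left (u v w : H) : rip (u + v) w = rip u w + rip v w := by
  simp [rip, inner_add_left]

theorem rip_add_right (u v w : H) : rip u (v + w) = rip u v + rip u w := by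
  simp [rip, inner_add_right]

theorem rip_sub_left (u v w : H) : rip (u - v) w = rip u w - rip v w := by
  simp [rip, inner_sub_left]

theorem rip_sub_right (u v w : H) : rip u (v - w) = rip u v - rip u w := by
  simp [rip, inner_sub_right]

theorem rip_comm (u v : H) : rip u v = rip v u := by
  unfold rip
  rw [← inner_conj_symm u v]
  exact Complex.conj_re _

theorem rip_self (u : H) : rip u u = ‖u‖ ^ 2 := inner_self_re u

theorem rip_smul_left (c : ℝ) (u v : H) : rip (c • u) v = c * rip u v := by
  unfold rip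
  rw [← Complex.coe_smul, inner_smul_left]; simp

theorem rip_smul_right (c : ℝ) (u v : H) : rip u (c • v) = c * rip u v := by
  rw [rip_comm, rip_smul_left, rip_comm]

theorem rip_sa (t : H →L[ℂ] H) (ht : IsSelfAdjoint t) (v w : H) :
    rip (t v) w = rip v (t w) := by
  unfold rip; rw [inner_sa t ht]

theorem rip_nonneg (u : H) : 0 ≤ rip u u := by rw [rip_self]; positivity

theorem rip_sq_le (u v : H) : (rip u v) ^ 2 ≤ rip u u * rip v v := by
  rw [rip_self, rip_self]
  have h : |rip u v| ≤ ‖u‖ * ‖v‖ := by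
    unfold rip
    exact le_trans (Complex.abs_re_le_norm _) (norm_inner_le_norm u v)
  have := sq_le_sq' (by linarith [neg_abs_le (rip u v)]) (le_trans (le_abs_self _) h)
  nlinarith

/-- Pair estimate on the complement of the centre invariant vectors. -/
theorem pair_w (p q : H →L[ℂ] H) (hp : IsSelfAdjoint p) (hq : IsSelfAdjoint q)
    (hpp : p * p = p) (hqq : q * q = q) (w : H)
    (h1 : p (q (p w)) = (1 / 5 : ℝ) • p w) :
    -(9 / 40 : ℝ) * (rip (w - p w) (w - p w) + rip (w - q w) (w - q w))
      ≤ rip (w - p w) (w - q w) := by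
  have epp : ∀ v, p (p v) = p v := fun v => by
    have : p (p v) = (p * p) v := rfl
    rw [this, hpp]
  have eqq : ∀ v, q (q v) = q v := fun v => by
    have : q (q v) = (q * q) v := rfl
    rw [this, hqq]
  set a := p w with ha
  set b := q w with hb
  have hwa : rip w a = rip a a := by
    rw [ha, ← rip_sa p hp (p w) w, epp, rip_comm]
  have haw : rip a w = rip a a := by rw [rip_comm, hwa]
  have hwb : rip w b = rip b b := by
    rw [hb, ← rip_sa q hq (q w) w, eqq, rip_comm]
  have hbw : rip b w = rip b b := by rw [rip_comm, hwb]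
  have hqa : rip (q a) (q a) = (1 / 5 : ℝ) * rip a a := by
    rw [rip_sa q hq, eqq, ha]
    rw [rip_sa p hp]
    rw [h1, rip_smul_right, ← ha, hwa]
  have hab : rip a b = rip (q a) b := by
    rw [rip_sa q hq, hb, eqq]
  have h2 := rip_sq_le (q a) b
  rw [hqa, ← hab] at h2
  have hA := rip_nonneg a
  have hB := rip_nonneg b
  have hC : rip a b ≤ (9 / 40 : ℝ) * (rip a a + rip b b) := by
    nlinarith [sq_nonneg (rip a a - rip b b), sq_nonneg (rip a b - (9 / 40 : ℝ) * (rip a a + rip b b)),
      mul_nonneg hA hB]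
  have h3 := rip_nonneg (w - (20 / 29 : ℝ) • (a + b))
  simp only [rip_sub_left, rip_sub_right, rip_add_left, rip_add_right, rip_smul_left,
    rip_smul_right] at h3 ⊢
  rw [rip_comm b a] at *
  rw [hwa, hwb, haw, hbw] at *
  nlinarith

/-- Pair estimate on the centre invariant vectors. -/
theorem pair_u (p q : H →L[ℂ] H) (hp : IsSelfAdjoint p) (hq : IsSelfAdjoint q)
    (hpp : p * p = p) (hqq : q * q = q) (u : H)
    (h1 : p (q u) = q (p u)) :
    0 ≤ rip (u - p u) (u - q u) := by
  have epp : ∀ v, p (p v) = p v := fun v => by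
    have : p (p v) = (p * p) v := rfl
    rw [this, hpp]
  have eqq : ∀ v, q (q v) = q v := fun v => by
    have : q (q v) = (q * q) v := rfl
    rw [this, hqq]
  set a := p u with ha
  set b := q u with hb
  set g := p b with hg
  have hua : rip u a = rip a a := by
    rw [ha, ← rip_sa p hp (p u) u, epp, rip_comm]
  have hub : rip u b = rip b b := by
    rw [hb, ← rip_sa q hq (q u) u, eqq, rip_comm]
  have hqg : q g = g := by rw [h1, eqq]
  have hpg : p g = g := by rw [hg, epp]
  have hbg0 : rip b g = rip u g := by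
    rw [hb, rip_sa q hq, hqg]
  have hgg : rip u g = rip g g := by
    calc rip u g = rip b g := hbg0.symm
      _ = rip b (p g) := by rw [hpg]
      _ = rip (p b) g := (rip_sa p hp b g).symm
      _ = rip g g := by rw [← hg]
  have hab : rip a b = rip g g := by
    rw [ha, rip_sa p hp, ← hg, hgg]
  have hag : rip a g = rip g g := by
    rw [ha, rip_sa p hp, hpg, hgg]
  have hbg : rip b g = rip g g := by
    rw [hbg0, hgg]
  have h3 := rip_nonneg (u - a - b + g)
  simp only [rip_sub_left, rip_sub_right, rip_add_left, rip_add_right, rip_smul_left,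
    rip_smul_right] at h3 ⊢
  rw [rip_comm b a, rip_comm a u, rip_comm b u, rip_comm g u, rip_comm g a, rip_comm g b] at h3
  rw [rip_comm a u]
  rw [hua, hub, hab, hgg, hag, hbg] at *
  nlinarith

theorem pair_gap (e p q z : H →L[ℂ] H) (he : IsSelfAdjoint e)
    (hp : IsSelfAdjoint p) (hq : IsSelfAdjoint q) (hz : IsSelfAdjoint z)
    (hpp : p * p = p) (hqq : q * q = q) (hzz : z * z = z)
    (hep : e * p = p) (hez : e * z = z)
    (heq : e * q = q)
    (hpz : p * z = z * p) (hqz : q * z = z * q)
    (hpqz : p * q * z = q * p * z)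
    (hpqp : p * q * p - p * q * p * z = (1 / 5 : ℝ) • (p - p * z))
    (v : H) :
    -(9 / 40 : ℝ) * (rip ((e - p) v) ((e - p) v) + rip ((e - q) v) ((e - q) v))
      ≤ rip ((e - p) v) ((e - q) v) := by
  have hpe : p * e = p := by
    have := congrArg star hep
    rwa [star_mul, he.star_eq, hp.star_eq] at this
  have hqe : q * e = q := by
    have := congrArg star heq
    rwa [star_mul, he.star_eq, hq.star_eq] at this
  have hze : z * e = z := by
    have := congrArg star hez
    rwa [star_mul, he.star_eq, hz.star_eq] at this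
  have epe : ∀ x, p (e x) = p x := fun x => by
    change (p * e) x = p x; rw [hpe]
  have eqe : ∀ x, q (e x) = q x := fun x => by
    change (q * e) x = q x; rw [hqe]
  have eze : ∀ x, z (e x) = z x := fun x => by
    change (z * e) x = z x; rw [hze]
  have ezz : ∀ x, z (z x) = z x := fun x => by
    change (z * z) x = z x; rw [hzz]
  have epz : ∀ x, p (z x) = z (p x) := fun x => by
    change (p * z) x = (z * p) x; rw [hpz]
  have eqz : ∀ x, q (z x) = z (q x) := fun x => by
    change (q * z) x = (z * q) x; rw [hqz]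
  set u := z v with hu
  set w := e v - z v with hw
  have hzu : z u = u := ezz v
  have hzw : z w = 0 := by rw [hw, map_sub, eze, ezz, sub_self]
  have ea : (e - p) v = (u - p u) + (w - p w) := by
    change e v - p v = _
    rw [hw, map_sub, epe, ← hu]; abel
  have eb : (e - q) v = (u - q u) + (w - q w) := by
    change e v - q v = _
    rw [hw, map_sub, eqe, ← hu]; abel
  have c1 : ∀ x y, z x = x → z y = 0 → rip x y = 0 := by
    intro x y hx hy
    rw [← hx, rip_sa z hz, hy]; simp [rip]
  have c1' : ∀ x y, z x = x → z y = 0 → rip y x = 0 := by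
    intro x y hx hy
    rw [rip_comm]; exact c1 x y hx hy
  have zup : z (u - p u) = u - p u := by rw [map_sub, ← epz, hzu]
  have zuq : z (u - q u) = u - q u := by rw [map_sub, ← eqz, hzu]
  have zwp : z (w - p w) = 0 := by rw [map_sub, ← epz, hzw]; simp
  have zwq : z (w - q w) = 0 := by rw [map_sub, ← eqz, hzw]; simp
  have hW := pair_w p q hp hq hpp hqq w (by
    have h1 : (p * q * p - p * q * p * z) v = ((1 / 5 : ℝ) • (p - p * z)) v := by rw [hpqp]
    have h2 : (p * q * p - p * q * p * z) v = p (q (p v)) - p (q (p (z v))) := rfl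
    have h3 : ((1 / 5 : ℝ) • (p - p * z)) v = (1 / 5 : ℝ) • (p v - p (z v)) := rfl
    rw [h2, h3] at h1
    rw [hw, map_sub, epe, map_sub, map_sub]
    exact h1)
  have hU := pair_u p q hp hq hpp hqq u (by
    have h1 : (p * q * z) v = (q * p * z) v := by rw [hpqz]
    exact h1)
  rw [ea, eb]
  simp only [rip_add_left, rip_add_right]
  rw [c1 _ _ zup zwp, c1' _ _ zup zwp, c1 _ _ zuq zwq, c1' _ _ zuq zwq, c1 _ _ zup zwq,
    c1' _ _ zuq zwp]
  have n1 := rip_nonneg (u - p u)
  have n2 := rip_nonneg (u - q u)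
  linarith

theorem three_gap (e p0 p1 p2 : H →L[ℂ] H) (he : IsSelfAdjoint e)
    (hp0 : IsSelfAdjoint p0) (hp1 : IsSelfAdjoint p1) (hp2 : IsSelfAdjoint p2)
    (hee : e * e = e) (h00 : p0 * p0 = p0) (h11 : p1 * p1 = p1) (h22 : p2 * p2 = p2)
    (he0 : e * p0 = p0) (he1 : e * p1 = p1) (he2 : e * p2 = p2)
    (v : H)
    (h01 : -(9 / 40 : ℝ) * (rip ((e - p0) v) ((e - p0) v) + rip ((e - p1) v) ((e - p1) v))
      ≤ rip ((e - p0) v) ((e - p1) v))
    (h12 : -(9 / 40 : ℝ) * (rip ((e - p1) v) ((e - p1) v) + rip ((e - p2) v) ((e - p2) v))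
      ≤ rip ((e - p1) v) ((e - p2) v))
    (h20 : -(9 / 40 : ℝ) * (rip ((e - p2) v) ((e - p2) v) + rip ((e - p0) v) ((e - p0) v))
      ≤ rip ((e - p2) v) ((e - p0) v)) :
    (1 / 10 : ℝ) * rip (((e - p0) + (e - p1) + (e - p2)) v) v ≤
      rip (((e - p0) + (e - p1) + (e - p2)) v) (((e - p0) + (e - p1) + (e - p2)) v) ∧
    rip (((e - p0) + (e - p1) + (e - p2)) v) v = rip ((e - p0) v) ((e - p0) v) +
      rip ((e - p1) v) ((e - p1) v) + rip ((e - p2) v) ((e - p2) v) := by
  have key : ∀ p : H →L[ℂ] H, IsSelfAdjoint p → p * p = p → e * p = p →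
      rip ((e - p) v) v = rip ((e - p) v) ((e - p) v) := by
    intro p hp hpp hep
    have hpe : p * e = p := by
      have := congrArg star hep
      rwa [star_mul, he.star_eq, hp.star_eq] at this
    have h1 : (e - p) * (e - p) = e - p := by
      rw [sub_mul, mul_sub, mul_sub, hee, hep, hpe, hpp]; abel
    have h2 : IsSelfAdjoint (e - p) := he.sub hp
    rw [rip_sa (e - p) h2 v ((e - p) v)]
    change _ = rip v (((e - p) * (e - p)) v)
    rw [h1, rip_comm]
  have k0 := key p0 hp0 h00 he0
  have k1 := key p1 hp1 h11 he1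
  have k2 := key p2 hp2 h22 he2
  have e1 : ((e - p0) + (e - p1) + (e - p2)) v = (e - p0) v + (e - p1) v + (e - p2) v := rfl
  rw [e1]
  simp only [rip_add_left, rip_add_right]
  rw [k0, k1, k2, rip_comm ((e - p1) v) ((e - p0) v), rip_comm ((e - p2) v) ((e - p1) v),
    rip_comm ((e - p0) v) ((e - p2) v)]
  constructor
  · linarith
  · rfl

end Pool.Agent.Helper78
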