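import Mathlib

set_option autoImplicit false
set_option linter.unusedSectionVars false
set_option linter.unusedSimpArgs false

namespace Pool.Agent.Helper78

open Finset

instance fact5 : Fact (Nat.Prime 5) := ⟨by norm_num⟩

variable {A : Type*} [Ring A] [Algebra ℝ A]

/-- Average of a function on `ZMod 5`. -/
noncomputable def avg (x : ZMod 5 → A) : A := (1 / 5 : ℝ) • ∑ a, x a

theorem mul_avg (w : A) (x : ZMod 5 → A) : w * avg x = avg (fun a => w * x a) := by
  unfold avg; rw [mul_smul_comm, mul_sum]

theorem avg_mul (w : A) (x : ZMod 5 → A) : avg x * w = avg (fun a => x a * w) := by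
  unfold avg; rw [smul_mul_assoc, sum_mul]

theorem avg_const (w : A) : avg (fun _ => w) = w := by
  unfold avg
  rw [sum_const, card_univ, ZMod.card]
  rw [← Nat.cast_smul_eq_nsmul ℝ, smul_smul]
  norm_num

theorem avg_add (x : ZMod 5 → A) (hx : ∀ a b, x a * x b = x (a + b)) (a : ZMod 5) :
    x a * avg x = avg x := by
  rw [mul_avg]
  unfold avg
  congr 1
  simp_rw [hx]
  exact Equiv.sum_comp (Equiv.addLeft a) x

theorem avg_add' (x : ZMod 5 → A) (hx : ∀ a b, x a * x b = x (a + b)) (a : ZMod 5) :
    avg x * x a = avg x := by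
  rw [avg_mul]
  unfold avg
  congr 1
  simp_rw [hx]
  exact Equiv.sum_comp (Equiv.addRight a) x

theorem avg_idem (x : ZMod 5 → A) (hx : ∀ a b, x a * x b = x (a + b)) :
    avg x * avg x = avg x := by
  rw [avg_mul]
  simp_rw [avg_add x hx]
  exact avg_const _

theorem comm_avg (w : A) (z : ZMod 5 → A) (h : ∀ c, w * z c = z c * w) :
    w * avg z = avg z * w := by
  rw [mul_avg, avg_mul]; simp_rw [h]

theorem heis_comm (x y z : ZMod 5 → A)
    (hz : ∀ a b, z a * z b = z (a + b))
    (hzx : ∀ c a, x a * z c = z c * x a) (hzy : ∀ c b, y b * z c = z c * y b)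
    (hc : ∀ a b, x a * y b = z (a * b) * y b * x a) :
    avg x * avg y * avg z = avg y * avg x * avg z := by
  have h1 : ∀ a b, x a * y b * avg z = y b * x a * avg z := by
    intro a b
    have hxz : x a * avg z = avg z * x a := comm_avg _ _ (fun c => hzx c a)
    have hyz : y b * avg z = avg z * y b := comm_avg _ _ (fun c => hzy c b)
    calc x a * y b * avg z = z (a * b) * y b * x a * avg z := by rw [hc]
      _ = z (a * b) * (y b * (x a * avg z)) := by noncomm_ring
      _ = z (a * b) * (avg z * (y b * x a)) := by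
          rw [hxz, ← mul_assoc (y b), hyz, mul_assoc]
      _ = (z (a * b) * avg z) * (y b * x a) := by noncomm_ring
      _ = avg z * (y b * x a) := by rw [avg_add z hz]
      _ = y b * x a * avg z := by
          rw [mul_assoc (y b), hxz, ← mul_assoc (y b), hyz, mul_assoc]
  have e1 : avg x * avg y * avg z = avg (fun a => avg (fun b => x a * y b * avg z)) := by
    rw [avg_mul, avg_mul]
    congr 1; ext a
    rw [mul_avg (x a) y, avg_mul (avg z)]
  have e2 : avg y * avg x * avg z = avg (fun b => avg (fun a => y b * x a * avg z)) := by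
    rw [avg_mul, avg_mul]
    congr 1; ext a
    rw [mul_avg (y a) x, avg_mul (avg z)]
  rw [e1, e2]
  simp_rw [h1]
  unfold avg
  simp_rw [smul_sum]
  rw [sum_comm]

theorem heis_pqp (x y z : ZMod 5 → A)
    (hx : ∀ a b, x a * x b = x (a + b))
    (hz : ∀ a b, z a * z b = z (a + b))
    (hy0 : y 0 = x 0)
    (hzx : ∀ c a, x a * z c = z c * x a) (hzy : ∀ c b, y b * z c = z c * y b)
    (hc : ∀ a b, x a * y b = z (a * b) * y b * x a) :
    avg x * avg y * avg x - avg x * avg y * avg x * avg z
      = (1 / 5 : ℝ) • (avg x - avg x * avg z) := by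
  have hPz : avg x * avg z = avg z * avg x := by
    apply comm_avg
    intro c
    rw [avg_mul, mul_avg]
    simp_rw [hzx]
  have h1 : ∀ b, b ≠ 0 → avg x * y b * avg x = avg z * (y b * avg x) := by
    intro b hb
    have e1 : avg x * y b * avg x = avg (fun a => z (a * b) * (y b * avg x)) := by
      rw [avg_mul, avg_mul]
      congr 1; ext a
      rw [hc, mul_assoc, avg_add x hx, mul_assoc]
    rw [e1, avg_mul]
    unfold avg
    congr 1
    exact Equiv.sum_comp (Equiv.mulRight₀ b hb) (fun c => z c * (y b * ((1 / 5 : ℝ) • ∑ a, x a)))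
  have h2 : ∀ b, b ≠ 0 → avg x * y b * avg x - avg x * y b * avg x * avg z = 0 := by
    intro b hb
    have hyz : y b * avg z = avg z * y b := comm_avg _ _ (fun c => hzy c b)
    rw [h1 b hb]
    have : avg z * (y b * avg x) * avg z = avg z * (y b * avg x) := by
      calc avg z * (y b * avg x) * avg z = avg z * (y b * (avg x * avg z)) := by noncomm_ring
        _ = avg z * ((y b * avg z) * avg x) := by rw [hPz]; noncomm_ring
        _ = (avg z * avg z) * (y b * avg x) := by rw [hyz]; noncomm_ring
        _ = avg z * (y b * avg x) := by rw [avg_idem z hz]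
    rw [this, sub_self]
  have h3 : avg x * avg y * avg x - avg x * avg y * avg x * avg z
      = (1 / 5 : ℝ) • ∑ b, (avg x * y b * avg x - avg x * y b * avg x * avg z) := by
    rw [sum_sub_distrib, smul_sub]
    congr 1
    · rw [mul_avg (avg x) y, avg_mul (avg x)]; rfl
    · rw [mul_avg (avg x) y, avg_mul (avg x), avg_mul (avg z)]; rfl
  rw [h3]
  congr 1
  rw [sum_eq_single (0 : ZMod 5)]
  · rw [hy0, avg_add' x hx, avg_idem x hx]
  · intro b _ hb; exact h2 b hb
  · intro h; exact absurd (mem_univ _) h

end Pool.Agent.Helper78
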