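import Mathlib
import Pool.Agent.Helper78.Angle
import Pool.Agent.Helper78.Heis

set_option autoImplicit false
set_option linter.unusedSectionVars false
set_option linter.unusedSimpArgs false

namespace Pool.Agent.Helper78

open Finset

variable {H : Type*} [NormedAddCommGroup H] [InnerProductSpace ℂ H] [CompleteSpace H]
variable {Q : Type*} [Group Q] (V : Q → (H →L[ℂ] H))

/-- A (possibly degenerate) star representation of a group. -/
structure IsRep (V : Q → (H →L[ℂ] H)) : Prop where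
  mul : ∀ a b, V (a * b) = V a * V b
  star : ∀ a, star (V a) = V a⁻¹

variable {V}

theorem IsRep.one_mul (h : IsRep V) (a : Q) : V 1 * V a = V a := by
  rw [← h.mul]; simp

theorem IsRep.mul_one (h : IsRep V) (a : Q) : V a * V 1 = V a := by
  rw [← h.mul]; simp

theorem IsRep.sa_one (h : IsRep V) : IsSelfAdjoint (V 1) := by
  have := h.star 1
  rwa [inv_one] at this

theorem avg_sa (h : IsRep V) (k : ZMod 5 → Q) (hk : ∀ a, (k a)⁻¹ = k (-a)) :
    IsSelfAdjoint (avg (fun a => V (k a))) := by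
  unfold avg
  apply sa_smul
  rw [IsSelfAdjoint, star_sum]
  simp_rw [h.star, hk]
  exact Equiv.sum_comp (Equiv.neg (ZMod 5)) (fun a => V (k a))

/-- Heisenberg relations in a group. -/
structure Heis (x y z : ZMod 5 → Q) : Prop where
  xadd : ∀ a b, x a * x b = x (a + b)
  yadd : ∀ a b, y a * y b = y (a + b)
  zadd : ∀ a b, z a * z b = z (a + b)
  xz : ∀ c a, x a * z c = z c * x a
  yz : ∀ c b, y b * z c = z c * y b
  xy : ∀ a b, x a * y b = z (a * b) * y b * x a

theorem add_zero_one (x : ZMod 5 → Q) (hx : ∀ a b, x a * x b = x (a + b)) : x 0 = 1 := by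
  have := hx 0 0
  simpa using this

theorem add_inv (x : ZMod 5 → Q) (hx : ∀ a b, x a * x b = x (a + b)) (a : ZMod 5) :
    (x a)⁻¹ = x (-a) := by
  rw [inv_eq_iff_mul_eq_one, hx, add_neg_cancel]
  exact add_zero_one x hx

theorem rep_pair (h : IsRep V) (x y z : ZMod 5 → Q) (hh : Heis x y z) (v : H) :
    -(9 / 40 : ℝ) * (rip ((V 1 - avg (fun a => V (x a))) v) ((V 1 - avg (fun a => V (x a))) v)
      + rip ((V 1 - avg (fun a => V (y a))) v) ((V 1 - avg (fun a => V (y a))) v))
      ≤ rip ((V 1 - avg (fun a => V (x a))) v) ((V 1 - avg (fun a => V (y a))) v) := by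
  have hxV : ∀ a b, V (x a) * V (x b) = V (x (a + b)) := fun a b => by rw [← h.mul, hh.xadd]
  have hyV : ∀ a b, V (y a) * V (y b) = V (y (a + b)) := fun a b => by rw [← h.mul, hh.yadd]
  have hzV : ∀ a b, V (z a) * V (z b) = V (z (a + b)) := fun a b => by rw [← h.mul, hh.zadd]
  have hxz : ∀ c a, V (x a) * V (z c) = V (z c) * V (x a) := fun c a => by
    rw [← h.mul, ← h.mul, hh.xz]
  have hyz : ∀ c b, V (y b) * V (z c) = V (z c) * V (y b) := fun c b => by
    rw [← h.mul, ← h.mul, hh.yz]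
  have hc : ∀ a b, V (x a) * V (y b) = V (z (a * b)) * V (y b) * V (x a) := fun a b => by
    rw [← h.mul, ← h.mul, ← h.mul, hh.xy]
  apply pair_gap (V 1) (avg (fun a => V (x a))) (avg (fun a => V (y a))) (avg (fun a => V (z a)))
    h.sa_one (avg_sa h x (add_inv x hh.xadd)) (avg_sa h y (add_inv y hh.yadd))
    (avg_sa h z (add_inv z hh.zadd))
    (avg_idem _ hxV) (avg_idem _ hyV) (avg_idem _ hzV)
  · rw [mul_avg]; simp_rw [h.one_mul]
  · rw [mul_avg]; simp_rw [h.one_mul]
  · rw [mul_avg]; simp_rw [h.one_mul]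
  · apply comm_avg
    intro c
    rw [avg_mul, mul_avg]; simp_rw [hxz]
  · apply comm_avg
    intro c
    rw [avg_mul, mul_avg]; simp_rw [hyz]
  · exact heis_comm _ _ _ hzV hxz hyz hc
  · apply heis_pqp _ _ _ hxV hzV _ hxz hyz hc
    simp only [add_zero_one x hh.xadd, add_zero_one y hh.yadd]

/-- The main representation theoretic estimate. -/
theorem rep_gap (h : IsRep V) (k z : Fin 3 → ZMod 5 → Q)
    (h01 : Heis (k 0) (k 1) (z 0)) (h12 : Heis (k 1) (k 2) (z 1)) (h20 : Heis (k 2) (k 0) (z 2))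
    (s : Q) (hs : s * s = 1) (γ : ℕ → Q)
    (hγ : ∀ n, γ n ∈ Subgroup.closure {g | ∃ i a, g = k i a})
    (hD : ∀ i j, i ≠ j → (V 1 - V (γ i * s * (γ i)⁻¹)) * (V 1 - V (γ j * s * (γ j)⁻¹)) = 0) :
    spectrum ℂ ((5 : ℝ) • ((V 1 - avg (fun a => V (k 0 a))) + (V 1 - avg (fun a => V (k 1 a)))
      + (V 1 - avg (fun a => V (k 2 a)))) + (V 1 - V s))
      ⊆ {z : ℂ | z = 0 ∨ (z.im = 0 ∧ (1 / 2 : ℝ) ≤ z.re)} := by
  have hadd : ∀ i a b, k i a * k i b = k i (a + b) := by
    intro i
    fin_cases i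
    · exact h01.xadd
    · exact h01.yadd
    · exact h12.yadd
  have hkV : ∀ i a b, V (k i a) * V (k i b) = V (k i (a + b)) := fun i a b => by
    rw [← h.mul, hadd]
  set e := V 1 with he
  set p : Fin 3 → (H →L[ℂ] H) := fun i => avg (fun a => V (k i a)) with hp
  have hesa : IsSelfAdjoint e := h.sa_one
  have hee : e * e = e := by rw [he, ← h.mul, _root_.mul_one]
  have hpsa : ∀ i, IsSelfAdjoint (p i) := fun i => avg_sa h (k i) (add_inv (k i) (hadd i))
  have hpp : ∀ i, p i * p i = p i := fun i => avg_idem _ (hkV i)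
  have hep : ∀ i, e * p i = p i := fun i => by
    simp only [hp]
    rw [mul_avg]; simp_rw [he, h.one_mul]
  set t : H →L[ℂ] H := (e - p 0) + (e - p 1) + (e - p 2) with ht
  have htsa : IsSelfAdjoint t :=
    ((hesa.sub (hpsa 0)).add (hesa.sub (hpsa 1))).add (hesa.sub (hpsa 2))
  have hgap : ∀ v, (1 / 10 : ℝ) * rip (t v) v ≤ rip (t v) (t v) ∧
      rip (t v) v = rip ((e - p 0) v) ((e - p 0) v) +
      rip ((e - p 1) v) ((e - p 1) v) + rip ((e - p 2) v) ((e - p 2) v) := by
    intro v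
    exact three_gap e (p 0) (p 1) (p 2) hesa (hpsa 0) (hpsa 1) (hpsa 2) hee (hpp 0) (hpp 1) (hpp 2)
      (hep 0) (hep 1) (hep 2) v (rep_pair h _ _ _ h01 v) (rep_pair h _ _ _ h12 v)
      (rep_pair h _ _ _ h20 v)
  have htpos : ∀ v, 0 ≤ rip (t v) v := by
    intro v
    rw [(hgap v).2]
    have := rip_nonneg ((e - p 0) v)
    have := rip_nonneg ((e - p 1) v)
    have := rip_nonneg ((e - p 2) v)
    linarith
  have hspec : spectrum ℂ t ⊆ {z : ℂ | z = 0 ∨ (z.im = 0 ∧ (1 / 10 : ℝ) ≤ z.re)} := by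
    apply gap_of_ineq t htsa htpos
    intro v
    rw [← rip_self]
    exact (hgap v).1
  have hform : ∀ v, (∀ u, t u = 0 → inner ℂ u v = 0) → (1 / 10 : ℝ) * ‖v‖ ^ 2 ≤ rip (t v) v :=
    fun v hv => form_of_gap t htsa (1 / 10) (by norm_num) hspec v hv
  -- invariant vectors
  have hinv1 : ∀ ξ, t ξ = 0 → ∀ i a, V (k i a) ξ = e ξ := by
    intro ξ hξ i a
    have h1 := (hgap ξ).2
    rw [hξ] at h1
    have h0 : rip (0 : H) ξ = 0 := by simp [rip]
    rw [h0] at h1
    have n0 := rip_nonneg ((e - p 0) ξ)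
    have n1 := rip_nonneg ((e - p 1) ξ)
    have n2 := rip_nonneg ((e - p 2) ξ)
    have hz : ∀ i, rip ((e - p i) ξ) ((e - p i) ξ) = 0 := by
      intro i
      fin_cases i
      · change rip ((e - p 0) ξ) ((e - p 0) ξ) = 0
        linarith
      · change rip ((e - p 1) ξ) ((e - p 1) ξ) = 0
        linarith
      · change rip ((e - p 2) ξ) ((e - p 2) ξ) = 0
        linarith
    have h2 : (e - p i) ξ = 0 := by
      have := hz i
      rw [rip_self] at this
      have h3 : ‖(e - p i) ξ‖ = 0 := by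
        exact pow_eq_zero_iff (two_ne_zero) |>.1 this
      exact norm_eq_zero.1 h3
    have h4 : e ξ = p i ξ := by
      have : (e - p i) ξ = e ξ - p i ξ := rfl
      rw [this] at h2
      exact sub_eq_zero.1 h2
    have h5 : V (k i a) * p i = p i := avg_add _ (hkV i) a
    calc V (k i a) ξ = (V (k i a) * e) ξ := by rw [he, h.mul_one]
      _ = V (k i a) (e ξ) := rfl
      _ = V (k i a) (p i ξ) := by rw [h4]
      _ = (V (k i a) * p i) ξ := rfl
      _ = p i ξ := by rw [h5]
      _ = e ξ := h4.symm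
  have hinv : ∀ ξ, t ξ = 0 → ∀ g ∈ Subgroup.closure {g | ∃ i a, g = k i a}, V g ξ = e ξ := by
    intro ξ hξ g hg
    induction hg using Subgroup.closure_induction with
    | mem x hx =>
      obtain ⟨i, a, rfl⟩ := hx
      exact hinv1 ξ hξ i a
    | one => rfl
    | mul x y _ _ hx hy =>
      rw [h.mul]
      change V x (V y ξ) = e ξ
      rw [hy]
      change (V x * e) ξ = e ξ
      rw [he, h.mul_one]
      exact hx
    | inv x _ hx =>
      have h1 : V x⁻¹ (V x ξ) = e ξ := by
        change (V x⁻¹ * V x) ξ = e ξ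
        rw [← h.mul, inv_mul_cancel]
      rw [hx] at h1
      have h2 : V x⁻¹ (e ξ) = V x⁻¹ ξ := by
        change (V x⁻¹ * V 1) ξ = _
        rw [h.mul_one]
      rw [← h2]; exact h1
  set d : H →L[ℂ] H := e - V s with hd
  have hssa : star (V s) = V s := by
    rw [h.star]
    congr 1
    exact inv_eq_of_mul_eq_one_left hs
  have hdsa : IsSelfAdjoint d := hesa.sub hssa
  have hdd : ∀ g, (e - V (g * s * g⁻¹)) * (e - V (g * s * g⁻¹)) =
      (2 : ℝ) • (e - V (g * s * g⁻¹)) := by
    intro g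
    have h1 : V (g * s * g⁻¹) * V (g * s * g⁻¹) = e := by
      rw [← h.mul, he]
      congr 1
      calc g * s * g⁻¹ * (g * s * g⁻¹) = g * (s * s) * g⁻¹ := by group
        _ = 1 := by rw [hs]; group
    rw [sub_mul, mul_sub, mul_sub, hee, h1]
    rw [he, h.one_mul, h.mul_one]
    rw [two_smul]; abel
  have hdg : ∀ g u, rip ((e - V (g * s * g⁻¹)) u) u
      = (1 / 2 : ℝ) * rip ((e - V (g * s * g⁻¹)) u) ((e - V (g * s * g⁻¹)) u) := by
    intro g u
    have hsa : IsSelfAdjoint (e - V (g * s * g⁻¹)) := by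
      apply hesa.sub
      rw [IsSelfAdjoint, h.star]
      congr 1
      have : s⁻¹ = s := inv_eq_of_mul_eq_one_left hs
      simp [mul_inv_rev, this, mul_assoc]
    rw [rip_sa _ hsa u ((e - V (g * s * g⁻¹)) u)]
    change _ = (1 / 2 : ℝ) * rip u (((e - V (g * s * g⁻¹)) * (e - V (g * s * g⁻¹))) u)
    rw [hdd]
    change _ = (1 / 2 : ℝ) * rip u ((2 : ℝ) • ((e - V (g * s * g⁻¹)) u))
    rw [rip_smul_right, rip_comm u]
    ring
  have hd0 : ∀ ξ, t ξ = 0 → d ξ = 0 := by
    intro ξ hξ
    set D : ℕ → (H →L[ℂ] H) := fun j => e - V (γ j * s * (γ j)⁻¹) with hDdef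
    have hDsa : ∀ j, IsSelfAdjoint (D j) := by
      intro j
      apply hesa.sub
      rw [IsSelfAdjoint, h.star]
      congr 1
      have : s⁻¹ = s := inv_eq_of_mul_eq_one_left hs
      simp [mul_inv_rev, this, mul_assoc]
    have hDξ : ∀ j, D j ξ = V (γ j) (d ξ) := by
      intro j
      have h1 : V (γ j * s * (γ j)⁻¹) ξ = V (γ j) (V s (e ξ)) := by
        rw [h.mul, h.mul]
        change V (γ j) (V s (V (γ j)⁻¹ ξ)) = _
        rw [hinv ξ hξ _ (inv_mem (hγ j))]
      have h2 : V s (e ξ) = V s ξ := by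
        change (V s * V 1) ξ = _
        rw [h.mul_one]
      have h3 : V (γ j) (e ξ) = e ξ := by
        change (V (γ j) * V 1) ξ = _
        rw [h.mul_one]
        exact hinv ξ hξ _ (hγ j)
      change e ξ - V (γ j * s * (γ j)⁻¹) ξ = V (γ j) (e ξ - V s ξ)
      rw [h1, map_sub, h2, h3]
    have hed : e (d ξ) = d ξ := by
      change (e * (e - V s)) ξ = (e - V s) ξ
      rw [mul_sub, hee, he, h.one_mul]
    have hnorm : ∀ j, rip (D j ξ) (D j ξ) = rip (d ξ) (d ξ) := by
      intro j
      rw [hDξ j]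
      have h1 : rip (V (γ j) (d ξ)) (V (γ j) (d ξ)) = rip (d ξ) (V (γ j)⁻¹ (V (γ j) (d ξ))) := by
        unfold rip
        rw [← h.star, ContinuousLinearMap.star_eq_adjoint, ContinuousLinearMap.adjoint_inner_right]
      rw [h1]
      change rip (d ξ) ((V (γ j)⁻¹ * V (γ j)) (d ξ)) = _
      rw [← h.mul, inv_mul_cancel, ← he, hed]
    have horth : ∀ i j, i ≠ j → rip (D i ξ) (D j ξ) = 0 := by
      intro i j hij
      rw [rip_sa _ (hDsa i)]
      change rip ξ ((D i * D j) ξ) = 0
      have : D i * D j = 0 := hD i j hij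
      rw [this]; simp [rip]
    have hsum1 : ∀ n : ℕ, rip (∑ j ∈ range n, D j ξ) (∑ j ∈ range n, D j ξ)
        = n * rip (d ξ) (d ξ) := by
      intro n
      induction n with
      | zero => simp [rip]
      | succ n ih =>
        rw [sum_range_succ, rip_add_left, rip_add_right, rip_add_right, ih, hnorm n]
        have hz : ∀ m, m ≤ n → rip (∑ j ∈ range m, D j ξ) (D n ξ) = 0 := by
          intro m
          induction m with
          | zero => intro _; simp [rip]
          | succ m ih2 =>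
            intro hm
            rw [sum_range_succ, rip_add_left, ih2 (by omega), horth m n (by omega)]
            simp
        rw [rip_comm (D n ξ), hz n le_rfl]
        push_cast; ring
    have hsum2 : ∀ n : ℕ, rip (∑ j ∈ range n, D j ξ) ξ = n * ((1 / 2 : ℝ) * rip (d ξ) (d ξ)) := by
      intro n
      induction n with
      | zero => simp [rip]
      | succ n ih =>
        rw [sum_range_succ, rip_add_left, ih]
        have : rip (D n ξ) ξ = (1 / 2 : ℝ) * rip (D n ξ) (D n ξ) := hdg (γ n) ξ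
        rw [this, hnorm n]
        push_cast; ring
    set δ := rip (d ξ) (d ξ) with hδ
    have hδ0 : 0 ≤ δ := rip_nonneg _
    have hcs : ∀ n : ℕ, (n * ((1 / 2 : ℝ) * δ)) ^ 2 ≤ (n * δ) * rip ξ ξ := by
      intro n
      have := rip_sq_le (∑ j ∈ range n, D j ξ) ξ
      rw [hsum1, hsum2] at this
      exact this
    have hδz : δ = 0 := by
      by_contra hne
      have hpos : 0 < δ := lt_of_le_of_ne hδ0 (Ne.symm hne)
      obtain ⟨n, hn⟩ := exists_nat_gt (4 * rip ξ ξ / δ)
      have hn' : 4 * rip ξ ξ < n * δ := by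
        rwa [div_lt_iff₀ hpos] at hn
      have h1 := hcs n
      have h2 : 0 ≤ rip ξ ξ := rip_nonneg ξ
      have h3 : 0 < (n : ℝ) * δ := by linarith
      nlinarith
    rw [hδ, rip_self] at hδz
    exact norm_eq_zero.1 (pow_eq_zero_iff (two_ne_zero) |>.1 hδz)
  set M : H →L[ℂ] H := (5 : ℝ) • t + d with hM
  have hMsa : IsSelfAdjoint M := (sa_smul t htsa 5).add hdsa
  have hdpos : ∀ v, 0 ≤ rip (d v) v := by
    intro v
    have h1 := hdg 1 v
    rw [_root_.one_mul, inv_one, _root_.mul_one] at h1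
    rw [hd, h1]
    have := rip_nonneg ((e - V s) v)
    linarith
  have hMv : ∀ v, M v = (5 : ℝ) • t v + d v := fun v => rfl
  apply gap_of_ineq M hMsa
  · intro v
    change 0 ≤ rip (M v) v
    rw [hMv, rip_add_left, rip_smul_left]
    have := htpos v
    have := hdpos v
    linarith
  · intro v
    change (1 / 2 : ℝ) * rip (M v) v ≤ _
    rw [← rip_self]
    let K : Submodule ℂ H := LinearMap.ker (t : H →ₗ[ℂ] H)
    have hKc : IsClosed (K : Set H) := by
      have : (K : Set H) = t ⁻¹' {0} := by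
        ext x; simp [K]
      rw [this]
      exact isClosed_singleton.preimage t.continuous
    haveI : CompleteSpace K := hKc.completeSpace_coe
    obtain ⟨v0, hv0, v1, hv1, hv⟩ := K.exists_add_mem_mem_orthogonal v
    have ht0 : t v0 = 0 := hv0
    have hM0 : M v0 = 0 := by rw [hMv, ht0, hd0 v0 ht0]; simp
    have hMv1 : M v = M v1 := by rw [hv, map_add, hM0, zero_add]
    have h1 : rip (M v) v = rip (M v1) v1 := by
      rw [hMv1, hv, rip_add_right]
      rw [rip_sa M hMsa v1 v0, hM0]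
      simp [rip]
    have h2 : (1 / 10 : ℝ) * ‖v1‖ ^ 2 ≤ rip (t v1) v1 := by
      apply hform
      intro u hu
      exact (Submodule.mem_orthogonal K v1).1 hv1 u hu
    rw [h1, hMv1]
    have h3 : rip (M v1) v1 = 5 * rip (t v1) v1 + rip (d v1) v1 := by
      rw [hMv, rip_add_left, rip_smul_left]
    have h4 := hdpos v1
    have h5 := rip_sq_le (M v1) v1
    have h6 : rip v1 v1 = ‖v1‖ ^ 2 := rip_self v1
    have h7 := rip_nonneg (M v1)
    have h8 : (1 / 2 : ℝ) * rip v1 v1 ≤ rip (M v1) v1 := by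
      rw [h3, h6]; linarith
    have h9 := rip_nonneg v1
    by_cases hz : rip (M v1) v1 = 0
    · rw [hz]; linarith
    · have hpos : 0 < rip (M v1) v1 := lt_of_le_of_ne (by linarith) (Ne.symm hz)
      nlinarith

end Pool.Agent.Helper78
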