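import Mathlib
import Pool.Agent.Helper78.RepGap

set_option autoImplicit false
set_option linter.unusedSectionVars false
set_option linter.unusedSimpArgs false

namespace Pool.Agent.Helper78

open Finset

section TV
variable {R : Type*} [CommRing R]

theorem tvm_mul (i j : Fin 3) (h : i ≠ j) (r s : R) :
    (1 + Matrix.single i j r : Matrix (Fin 3) (Fin 3) R) * (1 + Matrix.single i j s)
      = 1 + Matrix.single i j (r + s) := by
  simp only [mul_add, add_mul, mul_one, one_mul,
    Matrix.single_mul_single_of_ne _ _ _ _ h.symm, Matrix.single_add]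
  abel

/-- Elementary matrices as units. -/
def tv (i j : Fin 3) (h : i ≠ j) (r : R) : (Matrix (Fin 3) (Fin 3) R)ˣ where
  val := 1 + Matrix.single i j r
  inv := 1 + Matrix.single i j (-r)
  val_inv := by
    rw [tvm_mul i j h]; simp
  inv_val := by
    rw [tvm_mul i j h]; simp

theorem tv_val (i j : Fin 3) (h : i ≠ j) (r : R) :
    ((tv i j h r : (Matrix (Fin 3) (Fin 3) R)ˣ) : Matrix (Fin 3) (Fin 3) R)
      = 1 + Matrix.single i j r := rfl

theorem tv_mul (i j : Fin 3) (h : i ≠ j) (r s : R) :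
    tv i j h r * tv i j h s = tv i j h (r + s) := by
  apply Units.ext
  rw [Units.val_mul]
  exact tvm_mul i j h r s

theorem tv_xy (i j k : Fin 3) (hij : i ≠ j) (hjk : j ≠ k) (hik : i ≠ k) (r s : R) :
    tv i j hij r * tv j k hjk s = tv i k hik (r * s) * tv j k hjk s * tv i j hij r := by
  apply Units.ext
  rw [Units.val_mul, Units.val_mul, Units.val_mul, tv_val, tv_val, tv_val]
  simp only [mul_add, add_mul, mul_one, one_mul, Matrix.single_mul_single_same,
    Matrix.single_mul_single_of_ne _ _ _ _ hij.symm,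
    Matrix.single_mul_single_of_ne _ _ _ _ hik.symm,
    Matrix.single_mul_single_of_ne _ _ _ _ hjk.symm, zero_mul, mul_zero]
  abel

theorem tv_xz (i j k : Fin 3) (hij : i ≠ j) (hik : i ≠ k) (r s : R) :
    tv i j hij r * tv i k hik s = tv i k hik s * tv i j hij r := by
  apply Units.ext
  rw [Units.val_mul, Units.val_mul, tv_val, tv_val]
  simp only [mul_add, add_mul, mul_one, one_mul, Matrix.single_mul_single_same,
    Matrix.single_mul_single_of_ne _ _ _ _ hij.symm,
    Matrix.single_mul_single_of_ne _ _ _ _ hik.symm, zero_mul, mul_zero]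
  abel

theorem tv_yz (i j k : Fin 3) (hjk : j ≠ k) (hik : i ≠ k) (r s : R) :
    tv j k hjk r * tv i k hik s = tv i k hik s * tv j k hjk r := by
  apply Units.ext
  rw [Units.val_mul, Units.val_mul, tv_val, tv_val]
  simp only [mul_add, add_mul, mul_one, one_mul, Matrix.single_mul_single_same,
    Matrix.single_mul_single_of_ne _ _ _ _ hik.symm,
    Matrix.single_mul_single_of_ne _ _ _ _ hjk.symm, zero_mul, mul_zero]
  abel

theorem tv_apply (i j : Fin 3) (h : i ≠ j) (r : R) (a b : Fin 3) (hab : a ≠ b) :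
    ((tv i j h r : (Matrix (Fin 3) (Fin 3) R)ˣ) : Matrix (Fin 3) (Fin 3) R) a b
      = if i = a ∧ j = b then r else 0 := by
  rw [tv_val, Matrix.add_apply, Matrix.one_apply_ne hab, zero_add, Matrix.single_apply]

end TV

/-- The finite coefficient rings. -/
abbrev RR (N : ℕ) : Type := AddMonoidAlgebra (ZMod 5) (ZMod (N + 1))

instance RR_finite (N : ℕ) : Finite (RR N) := by
  have : Finite (ZMod (N + 1)) := inferInstance
  have : Finite (ZMod (N + 1) → ZMod 5) := inferInstance
  refine Finite.of_injective (fun (x : RR N) => (fun i => x.coeff i : ZMod (N + 1) → ZMod 5)) ?_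
  intro x y h
  apply AddMonoidAlgebra.coeff_injective
  ext i
  exact congrFun h i

/-- The special element. -/
noncomputable def TT (N : ℕ) : RR N := AddMonoidAlgebra.single (1 : ZMod (N + 1)) (1 : ZMod 5)

theorem TT_pow (N j : ℕ) : (TT N) ^ j = AddMonoidAlgebra.single (j : ZMod (N + 1)) (1 : ZMod 5) := by
  unfold TT
  rw [AddMonoidAlgebra.single_pow]
  simp

theorem TT_pow_inj (N i j : ℕ) (hi : i ≤ N) (hj : j ≤ N) (h : (TT N) ^ i = (TT N) ^ j) : i = j := by
  rw [TT_pow, TT_pow] at h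
  have h2 : (i : ZMod (N + 1)) = (j : ZMod (N + 1)) := by
    have := AddMonoidAlgebra.single_left_injective (R := ZMod 5) (one_ne_zero) h
    exact this
  rw [ZMod.natCast_eq_natCast_iff] at h2
  have h3 := Nat.ModEq.eq_of_lt_of_lt h2 (by omega) (by omega)
  exact h3

/-- The finite groups. -/
abbrev GG (N : ℕ) : Type := (Matrix (Fin 3) (Fin 3) (RR N))ˣ

instance GG_finite (N : ℕ) : Finite (GG N) := inferInstance

/-- Product of all the finite groups. -/
abbrev PG : Type := (N : ℕ) → GG N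

/-- Families of root subgroups. -/
noncomputable def ke (i j : Fin 3) (h : i ≠ j) (c : (N : ℕ) → RR N) (a : ZMod 5) : PG :=
  fun N => tv i j h (algebraMap (ZMod 5) (RR N) a * c N)

theorem ke_add (i j : Fin 3) (h : i ≠ j) (c : (N : ℕ) → RR N) (a b : ZMod 5) :
    ke i j h c a * ke i j h c b = ke i j h c (a + b) := by
  funext N
  rw [Pi.mul_apply]
  unfold ke
  rw [tv_mul, map_add, add_mul]

theorem ke_heis (i j k : Fin 3) (hij : i ≠ j) (hjk : j ≠ k) (hik : i ≠ k)
    (c c' : (N : ℕ) → RR N) :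
    Heis (ke i j hij c) (ke j k hjk c') (ke i k hik (fun N => c N * c' N)) where
  xadd := ke_add _ _ _ _
  yadd := ke_add _ _ _ _
  zadd := ke_add _ _ _ _
  xz := by
    intro d a
    funext N
    rw [Pi.mul_apply, Pi.mul_apply]
    exact tv_xz i j k hij hik _ _
  yz := by
    intro d a
    funext N
    rw [Pi.mul_apply, Pi.mul_apply]
    exact tv_yz i j k hjk hik _ _
  xy := by
    intro a b
    funext N
    rw [Pi.mul_apply, Pi.mul_apply, Pi.mul_apply]
    unfold ke
    rw [tv_xy i j k hij hjk hik]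
    congr 3
    rw [map_mul]; ring

theorem Heis.z_mem {Q : Type*} [Group Q] {x y z : ZMod 5 → Q} (h : Heis x y z) (K : Subgroup Q)
    (hx : ∀ a, x a ∈ K) (hy : ∀ a, y a ∈ K) (c : ZMod 5) : z c ∈ K := by
  have h1 : z c = x c * y 1 * (x c)⁻¹ * (y 1)⁻¹ := by
    rw [h.xy c 1]; simp [mul_assoc]
  rw [h1]
  exact K.mul_mem (K.mul_mem (K.mul_mem (hx c) (hy 1)) (K.inv_mem (hx c))) (K.inv_mem (hy 1))

/-- The three generating subgroups. -/
noncomputable def kk : Fin 3 → ZMod 5 → PG :=
  ![ke 2 0 (by decide) TT, ke 0 1 (by decide) (fun _ => 1), ke 1 2 (by decide) (fun _ => 1)]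

/-- The three pairwise commutator subgroups. -/
noncomputable def zz : Fin 3 → ZMod 5 → PG :=
  ![ke 2 1 (by decide) (fun N => TT N * 1), ke 0 2 (by decide) (fun _ => 1 * 1),
    ke 1 0 (by decide) (fun N => 1 * TT N)]

theorem heis01 : Heis (kk 0) (kk 1) (zz 0) :=
  ke_heis 2 0 1 (by decide) (by decide) (by decide) TT (fun _ => 1)

theorem heis12 : Heis (kk 1) (kk 2) (zz 1) :=
  ke_heis 0 1 2 (by decide) (by decide) (by decide) (fun _ => 1) (fun _ => 1)

theorem heis20 : Heis (kk 2) (kk 0) (zz 2) :=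
  ke_heis 1 2 0 (by decide) (by decide) (by decide) (fun _ => 1) TT

/-- The group generated. -/
noncomputable def CC : Subgroup PG := Subgroup.closure {g | ∃ i a, g = kk i a}

theorem kk_mem (i : Fin 3) (a : ZMod 5) : kk i a ∈ CC := Subgroup.subset_closure ⟨i, a, rfl⟩

/-- The sequence of distinct elements. -/
noncomputable def gam (j : ℕ) : PG := ke 0 1 (by decide) (fun N => TT N ^ j) 1

theorem gam_mem_aux (j : ℕ) : ∀ a, ke 0 1 (by decide) (fun N => TT N ^ j) a ∈ CC := by
  induction j with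
  | zero =>
    intro a
    have : ke 0 1 (by decide) (fun N => TT N ^ 0) a = kk 1 a := by
      simp only [pow_zero]
      rfl
    rw [this]; exact kk_mem 1 a
  | succ j ih =>
    have h1 := ke_heis 0 1 2 (by decide) (by decide) (by decide) (fun N => TT N ^ j) (fun _ => 1)
    have h1m := h1.z_mem CC ih (kk_mem 2)
    have h2m := heis01.z_mem CC (kk_mem 0) (kk_mem 1)
    have h3 := ke_heis 0 2 1 (by decide) (by decide) (by decide)
      (fun N => TT N ^ j * 1) (fun N => TT N * 1)
    have h3m := h3.z_mem CC h1m h2m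
    intro a
    have h4 := h3m a
    have h5 : (fun N => (TT N ^ j * 1) * (TT N * 1)) = (fun N => TT N ^ (j + 1)) := by
      funext N; rw [pow_succ]; ring
    rw [h5] at h4
    exact h4

theorem gam_mem (j : ℕ) : gam j ∈ CC := gam_mem_aux j 1

theorem gam_ne (i j N : ℕ) (hi : i ≤ N) (hj : j ≤ N) (hij : i ≠ j) : gam i N ≠ gam j N := by
  intro h
  apply hij
  apply TT_pow_inj N i j hi hj
  have h2 := congrArg (fun u : GG N => (u : Matrix (Fin 3) (Fin 3) (RR N)) 0 1) h
  simp only [gam, ke] at h2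
  rw [tv_apply _ _ _ _ _ _ (by decide), tv_apply _ _ _ _ _ _ (by decide)] at h2
  simp only [map_one, one_mul] at h2
  simpa using h2

theorem TT_unit (N : ℕ) : TT N * TT N ^ N = 1 := by
  rw [← pow_succ', TT_pow]
  have : ((N + 1 : ℕ) : ZMod (N + 1)) = 0 := ZMod.natCast_self (N + 1)
  rw [this]; rfl

theorem alg_inj (N : ℕ) (a b : ZMod 5)
    (h : algebraMap (ZMod 5) (RR N) a = algebraMap (ZMod 5) (RR N) b) : a = b :=
  (algebraMap (ZMod 5) (RR N)).injective h

theorem alg_T_inj (N : ℕ) (a b : ZMod 5)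
    (h : algebraMap (ZMod 5) (RR N) a * TT N = algebraMap (ZMod 5) (RR N) b * TT N) : a = b := by
  apply alg_inj N
  have h2 := congrArg (fun x => x * TT N ^ N) h
  simp only [mul_assoc, TT_unit, mul_one] at h2
  exact h2

theorem kk_val0 (N : ℕ) (a : ZMod 5) (p q : Fin 3) (hpq : p ≠ q) :
    ((kk 0 a N : GG N) : Matrix (Fin 3) (Fin 3) (RR N)) p q
      = if 2 = p ∧ 0 = q then algebraMap (ZMod 5) (RR N) a * TT N else 0 :=
  tv_apply 2 0 (by decide) _ p q hpq

theorem kk_val1 (N : ℕ) (a : ZMod 5) (p q : Fin 3) (hpq : p ≠ q) :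
    ((kk 1 a N : GG N) : Matrix (Fin 3) (Fin 3) (RR N)) p q
      = if 0 = p ∧ 1 = q then algebraMap (ZMod 5) (RR N) a * 1 else 0 :=
  tv_apply 0 1 (by decide) _ p q hpq

theorem kk_val2 (N : ℕ) (a : ZMod 5) (p q : Fin 3) (hpq : p ≠ q) :
    ((kk 2 a N : GG N) : Matrix (Fin 3) (Fin 3) (RR N)) p q
      = if 1 = p ∧ 2 = q then algebraMap (ZMod 5) (RR N) a * 1 else 0 :=
  tv_apply 1 2 (by decide) _ p q hpq

theorem kk_zero (i : Fin 3) : kk i 0 = 1 := by
  have hadd : ∀ i a b, kk i a * kk i b = kk i (a + b) := by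
    intro i
    fin_cases i
    · exact heis01.xadd
    · exact heis01.yadd
    · exact heis12.yadd
  exact add_zero_one (kk i) (hadd i)

theorem kk_free (N : ℕ) (i j : Fin 3) (a b : ZMod 5) (h : kk i a N = kk j b N)
    (ha : a ≠ 0) : i = j ∧ a = b := by
  have e1 := congrArg (fun u : GG N => (u : Matrix (Fin 3) (Fin 3) (RR N)) 2 0) h
  have e2 := congrArg (fun u : GG N => (u : Matrix (Fin 3) (Fin 3) (RR N)) 0 1) h
  have e3 := congrArg (fun u : GG N => (u : Matrix (Fin 3) (Fin 3) (RR N)) 1 2) h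
  have z1 : algebraMap (ZMod 5) (RR N) a * TT N = 0 → False := by
    intro h
    apply ha
    apply alg_T_inj N
    rw [h, map_zero, zero_mul]
  have z2 : algebraMap (ZMod 5) (RR N) a * 1 = 0 → False := by
    intro h
    apply ha
    apply alg_inj N
    rw [map_zero, ← h, mul_one]
  fin_cases i <;> fin_cases j
  · refine ⟨rfl, ?_⟩
    change ((kk 0 a N : GG N) : Matrix (Fin 3) (Fin 3) (RR N)) 2 0
      = ((kk 0 b N : GG N) : Matrix (Fin 3) (Fin 3) (RR N)) 2 0 at e1
    rw [kk_val0 _ _ _ _ (by decide), kk_val0 _ _ _ _ (by decide), if_pos (by decide),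
      if_pos (by decide)] at e1
    exact alg_T_inj N _ _ e1
  · exfalso
    change ((kk 0 a N : GG N) : Matrix (Fin 3) (Fin 3) (RR N)) 2 0
      = ((kk 1 b N : GG N) : Matrix (Fin 3) (Fin 3) (RR N)) 2 0 at e1
    rw [kk_val0 _ _ _ _ (by decide), kk_val1 _ _ _ _ (by decide), if_pos (by decide),
      if_neg (by decide)] at e1
    exact z1 e1
  · exfalso
    change ((kk 0 a N : GG N) : Matrix (Fin 3) (Fin 3) (RR N)) 2 0
      = ((kk 2 b N : GG N) : Matrix (Fin 3) (Fin 3) (RR N)) 2 0 at e1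
    rw [kk_val0 _ _ _ _ (by decide), kk_val2 _ _ _ _ (by decide), if_pos (by decide),
      if_neg (by decide)] at e1
    exact z1 e1
  · exfalso
    change ((kk 1 a N : GG N) : Matrix (Fin 3) (Fin 3) (RR N)) 0 1
      = ((kk 0 b N : GG N) : Matrix (Fin 3) (Fin 3) (RR N)) 0 1 at e2
    rw [kk_val1 _ _ _ _ (by decide), kk_val0 _ _ _ _ (by decide), if_pos (by decide),
      if_neg (by decide)] at e2
    exact z2 e2
  · refine ⟨rfl, ?_⟩
    change ((kk 1 a N : GG N) : Matrix (Fin 3) (Fin 3) (RR N)) 0 1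
      = ((kk 1 b N : GG N) : Matrix (Fin 3) (Fin 3) (RR N)) 0 1 at e2
    rw [kk_val1 _ _ _ _ (by decide), kk_val1 _ _ _ _ (by decide), if_pos (by decide),
      if_pos (by decide), mul_one, mul_one] at e2
    exact alg_inj N _ _ e2
  · exfalso
    change ((kk 1 a N : GG N) : Matrix (Fin 3) (Fin 3) (RR N)) 0 1
      = ((kk 2 b N : GG N) : Matrix (Fin 3) (Fin 3) (RR N)) 0 1 at e2
    rw [kk_val1 _ _ _ _ (by decide), kk_val2 _ _ _ _ (by decide), if_pos (by decide),
      if_neg (by decide)] at e2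
    exact z2 e2
  · exfalso
    change ((kk 2 a N : GG N) : Matrix (Fin 3) (Fin 3) (RR N)) 1 2
      = ((kk 0 b N : GG N) : Matrix (Fin 3) (Fin 3) (RR N)) 1 2 at e3
    rw [kk_val2 _ _ _ _ (by decide), kk_val0 _ _ _ _ (by decide), if_pos (by decide),
      if_neg (by decide)] at e3
    exact z2 e3
  · exfalso
    change ((kk 2 a N : GG N) : Matrix (Fin 3) (Fin 3) (RR N)) 1 2
      = ((kk 1 b N : GG N) : Matrix (Fin 3) (Fin 3) (RR N)) 1 2 at e3
    rw [kk_val2 _ _ _ _ (by decide), kk_val1 _ _ _ _ (by decide), if_pos (by decide),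
      if_neg (by decide)] at e3
    exact z2 e3
  · refine ⟨rfl, ?_⟩
    change ((kk 2 a N : GG N) : Matrix (Fin 3) (Fin 3) (RR N)) 1 2
      = ((kk 2 b N : GG N) : Matrix (Fin 3) (Fin 3) (RR N)) 1 2 at e3
    rw [kk_val2 _ _ _ _ (by decide), kk_val2 _ _ _ _ (by decide), if_pos (by decide),
      if_pos (by decide), mul_one, mul_one] at e3
    exact alg_inj N _ _ e3

end Pool.Agent.Helper78
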