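import Mathlib

set_option autoImplicit false

namespace Pool.Agent.Helper78

open scoped ComplexConjugate

/-- The Hilbert space of square summable complex sequences. -/
noncomputable abbrev E2 : Type := lp (fun _ : ℕ => ℂ) 2

/-- Standard basis vector. -/
noncomputable abbrev ev (x : ℕ) : E2 := (lp.single 2 x (1 : ℂ) : lp (fun _ : ℕ => ℂ) 2)

theorem inner_ev_left (x : ℕ) (f : E2) : inner ℂ (ev x) f = f x := by
  unfold ev
  rw [lp.inner_single_left]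
  simp

theorem perm_apply_inv (σ : Equiv.Perm ℕ) (i : ℕ) : σ (σ⁻¹ i) = i :=
  Equiv.apply_symm_apply σ i

theorem mem_perm (σ : Equiv.Perm ℕ) (f : E2) :
    Memℓp (fun i => f (σ⁻¹ i)) 2 := by
  have h := lp.memℓp f
  rw [memℓp_gen_iff (by norm_num)] at h ⊢
  exact (Equiv.summable_iff (σ⁻¹ : Equiv.Perm ℕ)
    (f := fun i => ‖f i‖ ^ (2 : ENNReal).toReal)).2 h

/-- Permutation operator as a linear map. -/
noncomputable def Ulin (σ : Equiv.Perm ℕ) : E2 →ₗ[ℂ] E2 where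
  toFun f := ⟨fun i => f (σ⁻¹ i), mem_perm σ f⟩
  map_add' f g := by
    ext i; rfl
  map_smul' c f := by
    ext i; rfl

theorem Ulin_apply (σ : Equiv.Perm ℕ) (f : E2) (i : ℕ) : Ulin σ f i = f (σ⁻¹ i) := rfl

theorem Ulin_norm (σ : Equiv.Perm ℕ) (f : E2) : ‖Ulin σ f‖ = ‖f‖ := by
  rw [lp.norm_eq_tsum_rpow (by norm_num), lp.norm_eq_tsum_rpow (by norm_num)]
  congr 1
  exact Equiv.tsum_eq (σ⁻¹ : Equiv.Perm ℕ) (fun i => ‖f i‖ ^ (2 : ENNReal).toReal)

/-- Permutation operator as a bounded operator. -/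
noncomputable def U (σ : Equiv.Perm ℕ) : E2 →L[ℂ] E2 :=
  (Ulin σ).mkContinuous 1 (fun f => by rw [Ulin_norm, one_mul])

theorem U_apply (σ : Equiv.Perm ℕ) (f : E2) (i : ℕ) : U σ f i = f (σ⁻¹ i) := rfl

theorem U_one : U 1 = 1 := by
  ext f i
  rfl

theorem U_mul (σ τ : Equiv.Perm ℕ) : U (σ * τ) = U σ * U τ := by
  ext f i
  change f ((σ * τ)⁻¹ i) = f (τ⁻¹ (σ⁻¹ i))
  rw [mul_inv_rev]; rfl

theorem U_star (σ : Equiv.Perm ℕ) : star (U σ) = U σ⁻¹ := by
  rw [ContinuousLinearMap.star_eq_adjoint]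
  symm
  rw [ContinuousLinearMap.eq_adjoint_iff]
  intro f g
  rw [lp.inner_eq_tsum, lp.inner_eq_tsum]
  rw [← Equiv.tsum_eq (σ⁻¹ : Equiv.Perm ℕ) (fun i => inner ℂ ((U σ⁻¹ f) i) (g i))]
  apply tsum_congr
  intro i
  rw [U_apply, U_apply, inv_inv]
  rw [perm_apply_inv]

theorem U_ev (σ : Equiv.Perm ℕ) (x : ℕ) : U σ (ev x) = ev (σ x) := by
  ext i
  rw [U_apply]
  unfold ev
  rw [lp.single_apply, lp.single_apply]
  by_cases h : i = σ x
  · subst h; simp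
  · have h' : σ⁻¹ i ≠ x := by
      intro h2; apply h; rw [← h2, perm_apply_inv]
    rw [Pi.single_eq_of_ne h, Pi.single_eq_of_ne h']

theorem inner_ev_ev (x y : ℕ) : inner ℂ (ev y) (ev x) = if x = y then (1 : ℂ) else 0 := by
  rw [inner_ev_left]
  unfold ev
  rw [lp.single_apply]
  by_cases h : x = y
  · subst h; simp
  · rw [if_neg h, Pi.single_eq_of_ne (fun h2 => h h2.symm)]

theorem inner_ev_U (σ : Equiv.Perm ℕ) (x y : ℕ) :
    inner ℂ (ev y) (U σ (ev x)) = if σ x = y then (1 : ℂ) else 0 := by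
  rw [U_ev, inner_ev_ev]

end Pool.Agent.Helper78
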