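import Mathlib
import Pool.Agent.Helper78.PermOp

set_option autoImplicit false
set_option linter.unusedSectionVars false
set_option linter.unusedSimpArgs false

namespace Pool.Agent.Helper78

open Finset

variable {ι : Type} [Fintype ι] (s : ι → Equiv.Perm ℕ)

/-- Schreier graph of a symmetric family of permutations. -/
def SG (hinv : ∀ i, ∃ j, s j = (s i)⁻¹) : SimpleGraph ℕ where
  Adj x y := x ≠ y ∧ ∃ i, s i x = y
  symm := ⟨by
    intro x y h
    obtain ⟨hxy, i, hi⟩ := h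
    obtain ⟨j, hj⟩ := hinv i
    refine ⟨hxy.symm, j, ?_⟩
    rw [hj, ← hi]
    exact Equiv.symm_apply_apply _ _⟩
  loopless := ⟨fun x h => h.1 rfl⟩

variable (hinv : ∀ i, ∃ j, s j = (s i)⁻¹)

theorem SG_adj (x y : ℕ) : (SG s hinv).Adj x y ↔ x ≠ y ∧ ∃ i, s i x = y := Iff.rfl

theorem SG_neighbor (x : ℕ) : (SG s hinv).neighborSet x =
    (fun i => s i x) '' {i | s i x ≠ x} := by
  ext y
  rw [SimpleGraph.mem_neighborSet, SG_adj]
  constructor
  · rintro ⟨hxy, i, hi⟩
    exact ⟨i, by rw [Set.mem_ofPred_eq, hi]; exact hxy.symm, hi⟩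
  · rintro ⟨i, hi, hy⟩
    have hi' : s i x ≠ x := hi
    refine ⟨?_, i, hy⟩
    rintro rfl
    exact hi' hy

theorem SG_finite (x : ℕ) : ((SG s hinv).neighborSet x).Finite := by
  rw [SG_neighbor]
  exact Set.toFinite _

theorem SG_ncard_le (x : ℕ) : ((SG s hinv).neighborSet x).ncard ≤ Fintype.card ι := by
  rw [SG_neighbor]
  refine le_trans (Set.ncard_image_le (Set.toFinite _)) ?_
  rw [← Nat.card_eq_fintype_card]
  exact Set.ncard_le_card _

/-- The Laplacian. -/
noncomputable def LL : E2 →L[ℂ] E2 := ∑ i, (1 - U (s i))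

theorem inner_LL (x y : ℕ) : inner ℂ (ev y) (LL s (ev x)) =
    ∑ i, ((if x = y then (1 : ℂ) else 0) - (if s i x = y then (1 : ℂ) else 0)) := by
  have h1 : LL s (ev x) = ∑ i, (ev x - U (s i) (ev x)) := by
    unfold LL
    rw [_root_.sum_apply]
    rfl
  rw [h1, inner_sum]
  apply sum_congr rfl
  intro i _
  rw [inner_sub_right, inner_ev_ev, inner_ev_U]

variable (hfree : ∀ x i j, s i x = s j x → s i x ≠ x → i = j)

include hfree in
theorem LL_diag (x : ℕ) : inner ℂ (ev x) (LL s (ev x)) = (((SG s hinv).neighborSet x).ncard : ℂ) := by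
  classical
  rw [inner_LL, SG_neighbor]
  rw [Set.InjOn.ncard_image]
  · rw [Set.ncard_eq_toFinset_card' {i | s i x ≠ x}]
    rw [show ({i | s i x ≠ x} : Set ι).toFinset = univ.filter (fun i => s i x ≠ x) by
      ext i; simp]
    rw [card_filter]
    push_cast
    apply sum_congr rfl
    intro i _
    by_cases h : s i x = x
    · simp [h]
    · simp [h]
  · intro i hi j _ hij
    exact hfree x i j hij hi

include hfree in
theorem LL_adj (x y : ℕ) (h : (SG s hinv).Adj x y) : inner ℂ (ev y) (LL s (ev x)) = -1 := by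
  classical
  rw [inner_LL]
  obtain ⟨hxy, i, hi⟩ := h
  rw [sum_eq_single i]
  · rw [if_neg hxy, if_pos hi]; norm_num
  · intro j _ hj
    rw [if_neg hxy, if_neg, sub_zero]
    intro h2
    apply hj
    apply hfree x j i (by rw [h2, hi])
    rw [h2]; exact hxy.symm
  · intro h; exact absurd (mem_univ _) h

theorem LL_nadj (x y : ℕ) (hxy : x ≠ y) (h : ¬ (SG s hinv).Adj x y) :
    inner ℂ (ev y) (LL s (ev x)) = 0 := by
  classical
  rw [inner_LL]
  apply sum_eq_zero
  intro i _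
  rw [if_neg hxy, if_neg, sub_zero]
  intro h2
  exact h ⟨hxy, i, h2⟩

/-- Finite propagation permutations. -/
theorem fp_closure (σ : Equiv.Perm ℕ) (hσ : σ ∈ Subgroup.closure (Set.range s)) :
    ∃ R : ℕ, ∀ x, (SG s hinv).edist x (σ x) ≤ (R : ℕ∞) := by
  induction hσ using Subgroup.closure_induction with
  | mem τ hτ =>
    obtain ⟨i, rfl⟩ := hτ
    refine ⟨1, fun x => ?_⟩
    by_cases h : s i x = x
    · rw [h]; simp
    · have : (SG s hinv).Adj x (s i x) := ⟨Ne.symm h, i, rfl⟩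
      rw [Nat.cast_one]
      exact (SimpleGraph.edist_eq_one_iff_adj.2 this).le
  | one => exact ⟨0, fun x => by simp⟩
  | mul a b _ _ ha hb =>
    obtain ⟨R1, h1⟩ := ha
    obtain ⟨R2, h2⟩ := hb
    refine ⟨R2 + R1, fun x => ?_⟩
    refine le_trans (SimpleGraph.edist_triangle (v := b x)) ?_
    push_cast
    exact add_le_add (h2 x) (h1 (b x))
  | inv a _ ha =>
    obtain ⟨R, h⟩ := ha
    refine ⟨R, fun x => ?_⟩
    have := h (a⁻¹ x)
    rw [perm_apply_inv] at this
    rwa [SimpleGraph.edist_comm]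

/-- Finite propagation operators. -/
def InP (G : SimpleGraph ℕ) (T : E2 →L[ℂ] E2) : Prop :=
  ∃ R : ℕ, ∀ x y : ℕ, inner ℂ (ev y) (T (ev x)) ≠ 0 → G.edist x y ≤ (R : ℕ∞)

variable {G : SimpleGraph ℕ}

theorem InP.zero : InP G 0 := ⟨0, fun x y h => absurd (by simp) h⟩

theorem InP.add {S T : E2 →L[ℂ] E2} (hS : InP G S) (hT : InP G T) : InP G (S + T) := by
  obtain ⟨R1, h1⟩ := hS
  obtain ⟨R2, h2⟩ := hT
  refine ⟨max R1 R2, fun x y h => ?_⟩
  have e : inner ℂ (ev y) ((S + T) (ev x)) = inner ℂ (ev y) (S (ev x)) + inner ℂ (ev y) (T (ev x)) := by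
    rw [_root_.add_apply, inner_add_right]
  rw [e] at h
  by_cases h3 : inner ℂ (ev y) (S (ev x)) = 0
  · rw [h3, zero_add] at h
    refine le_trans (h2 x y h) ?_
    exact_mod_cast le_max_right R1 R2
  · refine le_trans (h1 x y h3) ?_
    exact_mod_cast le_max_left R1 R2

theorem InP.smul {T : E2 →L[ℂ] E2} (c : ℂ) (hT : InP G T) : InP G (c • T) := by
  obtain ⟨R2, h2⟩ := hT
  refine ⟨R2, fun x y h => h2 x y ?_⟩
  intro h3
  apply h
  rw [_root_.smul_apply, inner_smul_right, h3, mul_zero]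

theorem InP.U {σ : Equiv.Perm ℕ} (hσ : ∃ R : ℕ, ∀ x, G.edist x (σ x) ≤ (R : ℕ∞)) :
    InP G (U σ) := by
  obtain ⟨R, h⟩ := hσ
  refine ⟨R, fun x y h2 => ?_⟩
  rw [inner_ev_U] at h2
  by_cases h3 : σ x = y
  · rw [← h3]; exact h x
  · rw [if_neg h3] at h2; exact absurd rfl h2

theorem InP.sum {κ : Type*} (t : Finset κ) (f : κ → (E2 →L[ℂ] E2)) (h : ∀ i ∈ t, InP G (f i)) :
    InP G (∑ i ∈ t, f i) := by
  classical
  induction t using Finset.induction_on with
  | empty => simpa using InP.zero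
  | insert a t ha ih =>
    rw [sum_insert ha]
    exact (h a (mem_insert_self _ _)).add (ih (fun i hi => h i (mem_insert_of_mem hi)))

end Pool.Agent.Helper78
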