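import Mathlib
import Pool.Agent.Helper78.Fam
import Pool.Agent.Helper78.GraphL

set_option autoImplicit false
set_option linter.unusedSectionVars false
set_option linter.unusedSimpArgs false

namespace Pool.Agent.Helper78

open Finset

/-- The vertex set. -/
abbrev XX : Type := (N : ℕ) × (Bool × GG N)

/-- Left multiplication action. -/
noncomputable def act : PG →* Equiv.Perm XX where
  toFun g :=
    { toFun := fun x => ⟨x.1, x.2.1, g x.1 * x.2.2⟩
      invFun := fun x => ⟨x.1, x.2.1, (g x.1)⁻¹ * x.2.2⟩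
      left_inv := fun x => by
        obtain ⟨N, b, h⟩ := x
        change (⟨N, b, (g N)⁻¹ * (g N * h)⟩ : XX) = ⟨N, b, h⟩
        rw [inv_mul_cancel_left]
      right_inv := fun x => by
        obtain ⟨N, b, h⟩ := x
        change (⟨N, b, (g N) * ((g N)⁻¹ * h)⟩ : XX) = ⟨N, b, h⟩
        rw [mul_inv_cancel_left] }
  map_one' := by
    apply Equiv.ext
    rintro ⟨N, b, h⟩
    change (⟨N, b, (1 : GG N) * h⟩ : XX) = ⟨N, b, h⟩
    rw [one_mul]
  map_mul' g k := by
    apply Equiv.ext
    rintro ⟨N, b, h⟩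
    change (⟨N, b, (g N * k N) * h⟩ : XX) = ⟨N, b, g N * (k N * h)⟩
    rw [mul_assoc]

theorem act_apply (g : PG) (N : ℕ) (b : Bool) (x : GG N) :
    act g ⟨N, b, x⟩ = ⟨N, b, g N * x⟩ := rfl

open Classical in
/-- The swap along the connecting edges. -/
noncomputable def swf (x : XX) : XX := ⟨x.1, if x.2.2 = 1 then !x.2.1 else x.2.1, x.2.2⟩

theorem swf_one (N : ℕ) (b : Bool) : swf ⟨N, b, (1 : GG N)⟩ = ⟨N, !b, 1⟩ := by
  unfold swf
  rw [if_pos rfl]

theorem swf_ne (N : ℕ) (b : Bool) (g : GG N) (h : g ≠ 1) : swf ⟨N, b, g⟩ = ⟨N, b, g⟩ := by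
  unfold swf
  rw [if_neg h]

theorem swf_swf (x : XX) : swf (swf x) = x := by
  obtain ⟨N, b, g⟩ := x
  by_cases h : g = 1
  · subst h
    rw [swf_one, swf_one, Bool.not_not]
  · rw [swf_ne N b g h, swf_ne N b g h]

/-- The swap along the connecting edges. -/
noncomputable def sw : Equiv.Perm XX := ⟨swf, swf, swf_swf, swf_swf⟩

theorem sw_apply (x : XX) : sw x = swf x := rfl

theorem sw_sw : sw * sw = 1 := by
  apply Equiv.ext
  intro x
  exact swf_swf x

theorem XX_countable : Countable XX := by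
  have h : ∀ N, Countable (Bool × GG N) := fun N => by
    have : Finite (Bool × GG N) := inferInstance
    exact Finite.to_countable
  exact instCountableSigma

theorem XX_infinite : Infinite XX := by
  refine Infinite.of_injective (fun N : ℕ => (⟨N, true, 1⟩ : XX)) ?_
  intro a b h
  exact congrArg Sigma.fst h

theorem exists_ee : Nonempty (XX ≃ ℕ) := by
  have := XX_countable
  have := XX_infinite
  exact nonempty_equiv_of_countable

/-- Enumeration of the vertex set. -/
noncomputable def ee : XX ≃ ℕ := exists_ee.some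

/-- Transfer of permutations. -/
noncomputable def tr : Equiv.Perm XX →* Equiv.Perm ℕ where
  toFun σ := ee.symm.trans (σ.trans ee)
  map_one' := by
    apply Equiv.ext
    intro x
    exact ee.apply_symm_apply x
  map_mul' σ τ := by
    apply Equiv.ext
    intro x
    change ee (σ (τ (ee.symm x))) = ee (σ (ee.symm (ee (τ (ee.symm x)))))
    rw [ee.symm_apply_apply]

theorem tr_apply (σ : Equiv.Perm XX) (x : XX) : tr σ (ee x) = ee (σ x) := by
  change ee (σ (ee.symm (ee x))) = _
  rw [Equiv.symm_apply_apply]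

/-- The action homomorphism. -/
noncomputable def ff : PG →* Equiv.Perm ℕ := tr.comp act

theorem ff_apply (g : PG) (N : ℕ) (b : Bool) (x : GG N) :
    ff g (ee ⟨N, b, x⟩) = ee ⟨N, b, g N * x⟩ := by
  change tr (act g) (ee ⟨N, b, x⟩) = _
  rw [tr_apply, act_apply]

/-- The generating permutations. -/
noncomputable def ss : Option (Fin 3 × ZMod 5) → Equiv.Perm ℕ
  | none => tr sw
  | some x => ff (kk x.1 x.2)

theorem kk_add (i : Fin 3) (a b : ZMod 5) : kk i a * kk i b = kk i (a + b) := by
  revert a b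
  fin_cases i
  · exact heis01.xadd
  · exact heis01.yadd
  · exact heis12.yadd

theorem kk_inv (i : Fin 3) (a : ZMod 5) : (kk i a)⁻¹ = kk i (-a) :=
  add_inv (kk i) (kk_add i) a

theorem ss_inv : ∀ i, ∃ j, ss j = (ss i)⁻¹ := by
  intro i
  rcases i with _ | ⟨i, a⟩
  · refine ⟨none, ?_⟩
    change tr sw = (tr sw)⁻¹
    rw [eq_inv_iff_mul_eq_one, ← map_mul, sw_sw, map_one]
  · refine ⟨some (i, -a), ?_⟩
    change ff (kk i (-a)) = (ff (kk i a))⁻¹
    rw [← map_inv, kk_inv]

theorem ee_inj {N : ℕ} {b b' : Bool} {g g' : GG N} (h : ee ⟨N, b, g⟩ = ee ⟨N, b', g'⟩) :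
    b = b' ∧ g = g' := by
  have h2 := ee.injective h
  rw [Sigma.mk.injEq] at h2
  have h3 := eq_of_heq h2.2
  exact ⟨congrArg Prod.fst h3, congrArg Prod.snd h3⟩

theorem ss_none (N : ℕ) (b : Bool) (g : GG N) : ss none (ee ⟨N, b, g⟩) = ee (swf ⟨N, b, g⟩) := by
  change tr sw (ee ⟨N, b, g⟩) = _
  rw [tr_apply, sw_apply]

theorem ss_some (i : Fin 3) (a : ZMod 5) (N : ℕ) (b : Bool) (g : GG N) :
    ss (some (i, a)) (ee ⟨N, b, g⟩) = ee ⟨N, b, kk i a N * g⟩ := by
  change ff (kk i a) (ee ⟨N, b, g⟩) = _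
  rw [ff_apply]

theorem ss_some_zero (i : Fin 3) (x : ℕ) : ss (some (i, 0)) x = x := by
  change ff (kk i 0) x = x
  rw [kk_zero, map_one]; rfl

theorem ss_free : ∀ x i j, ss i x = ss j x → ss i x ≠ x → i = j := by
  intro x i j h hx
  obtain ⟨⟨N, b, g⟩, rfl⟩ := ee.surjective x
  rcases i with _ | ⟨i, a⟩
  · rcases j with _ | ⟨j, c⟩
    · rfl
    · exfalso
      rw [ss_none] at h hx
      by_cases hg : g = 1
      · subst hg
        rw [swf_one, ss_some] at h
        have := (ee_inj h).1
        cases b <;> simp at this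
      · rw [swf_ne N b g hg] at hx
        exact hx rfl
  · by_cases ha : a = 0
    · subst ha
      exact absurd (ss_some_zero i _) hx
    · rcases j with _ | ⟨j, c⟩
      · exfalso
        rw [ss_none] at h
        by_cases hg : g = 1
        · subst hg
          rw [swf_one, ss_some] at h
          have := (ee_inj h).1
          cases b <;> simp at this
        · rw [swf_ne N b g hg] at h
          exact hx h
      · rw [ss_some, ss_some] at h
        have h2 := (ee_inj h).2
        have h3 := mul_right_cancel h2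
        obtain ⟨h4, h5⟩ := kk_free N i j a c h3 ha
        rw [h4, h5]

/-- The graph. -/
noncomputable def Gr : SimpleGraph ℕ := SG ss ss_inv

theorem ss_level (i : Option (Fin 3 × ZMod 5)) (x : ℕ) :
    (ee.symm (ss i x)).1 = (ee.symm x).1 := by
  obtain ⟨⟨N, b, g⟩, rfl⟩ := ee.surjective x
  rw [ee.symm_apply_apply]
  rcases i with _ | ⟨i, a⟩
  · rw [ss_none, ee.symm_apply_apply]; rfl
  · rw [ss_some, ee.symm_apply_apply]

theorem level_reach (x y : ℕ) (h : Gr.Reachable x y) : (ee.symm y).1 = (ee.symm x).1 := by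
  obtain ⟨w⟩ := h
  induction w with
  | nil => rfl
  | cons hadj w ih =>
    rw [ih]
    obtain ⟨_, i, hi⟩ := hadj
    rw [← hi]
    exact ss_level i _

theorem level_finite (n : ℕ) : {y : ℕ | (ee.symm y).1 = n}.Finite := by
  have h1 : {y : ℕ | (ee.symm y).1 = n} ⊆ Set.range (fun p : Bool × GG n => ee ⟨n, p⟩) := by
    intro y hy
    obtain ⟨⟨N, b, g⟩, rfl⟩ := ee.surjective y
    have h2 : N = n := by
      have : (ee.symm (ee ⟨N, b, g⟩)).1 = n := hy
      rw [ee.symm_apply_apply] at this
      exact this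
    subst h2
    exact ⟨(b, g), rfl⟩
  exact (Set.finite_range _).subset h1

theorem comp_finite (x : ℕ) : {y : ℕ | Gr.Reachable x y}.Finite := by
  apply (level_finite (ee.symm x).1).subset
  intro y hy
  exact level_reach x y hy

end Pool.Agent.Helper78
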