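import Mathlib
import Pool.Agent.Helper78.Assemble

set_option autoImplicit false
set_option linter.unusedSectionVars false
set_option linter.unusedSimpArgs false

namespace Pool.Agent.Helper78

open Finset

theorem Heis.map {Q Q' : Type*} [Group Q] [Group Q'] {x y z : ZMod 5 → Q} (h : Heis x y z)
    (φ : Q →* Q') : Heis (fun a => φ (x a)) (fun a => φ (y a)) (fun a => φ (z a)) where
  xadd a b := by simp only [← map_mul, h.xadd]
  yadd a b := by simp only [← map_mul, h.yadd]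
  zadd a b := by simp only [← map_mul, h.zadd]
  xz a b := by simp only [← map_mul, h.xz]
  yz a b := by simp only [← map_mul, h.yz]
  xy a b := by simp only [← map_mul, h.xy]

theorem Heis.lift {Q : Type*} [Group Q] (K : Subgroup Q) {x y z : ZMod 5 → K}
    (h : Heis (fun a => (x a : Q)) (fun a => (y a : Q)) (fun a => (z a : Q))) : Heis x y z where
  xadd a b := Subtype.ext (h.xadd a b)
  yadd a b := Subtype.ext (h.yadd a b)
  zadd a b := Subtype.ext (h.zadd a b)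
  xz a b := Subtype.ext (h.xz a b)
  yz a b := Subtype.ext (h.yz a b)
  xy a b := Subtype.ext (h.xy a b)

/-- The group generated by the generating permutations. -/
def KK : Subgroup (Equiv.Perm ℕ) := Subgroup.closure (Set.range ss)

theorem ff_mem (g : PG) (hg : g ∈ CC) : ff g ∈ KK := by
  induction hg using Subgroup.closure_induction with
  | mem x hx =>
    obtain ⟨i, a, rfl⟩ := hx
    exact Subgroup.subset_closure ⟨some (i, a), rfl⟩
  | one => rw [map_one]; exact KK.one_mem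
  | mul x y _ _ hx hy => rw [map_mul]; exact KK.mul_mem hx hy
  | inv x _ hx => rw [map_inv]; exact KK.inv_mem hx

/-- Restricted homomorphism. -/
noncomputable def fK : CC →* KK where
  toFun g := ⟨ff g, ff_mem g g.2⟩
  map_one' := Subtype.ext (map_one ff)
  map_mul' _ _ := Subtype.ext (map_mul ff _ _)

noncomputable def kC (i : Fin 3) (a : ZMod 5) : CC := ⟨kk i a, kk_mem i a⟩

theorem zz_mem (i : Fin 3) (a : ZMod 5) : zz i a ∈ CC := by
  fin_cases i
  · exact heis01.z_mem CC (kk_mem 0) (kk_mem 1) a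
  · exact heis12.z_mem CC (kk_mem 1) (kk_mem 2) a
  · exact heis20.z_mem CC (kk_mem 2) (kk_mem 0) a

noncomputable def zC (i : Fin 3) (a : ZMod 5) : CC := ⟨zz i a, zz_mem i a⟩

noncomputable def kK (i : Fin 3) (a : ZMod 5) : KK := fK (kC i a)
noncomputable def zK (i : Fin 3) (a : ZMod 5) : KK := fK (zC i a)

theorem hK01 : Heis (kK 0) (kK 1) (zK 0) :=
  (Heis.lift CC (x := kC 0) (y := kC 1) (z := zC 0) heis01).map fK

theorem hK12 : Heis (kK 1) (kK 2) (zK 1) :=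
  (Heis.lift CC (x := kC 1) (y := kC 2) (z := zC 1) heis12).map fK

theorem hK20 : Heis (kK 2) (kK 0) (zK 2) :=
  (Heis.lift CC (x := kC 2) (y := kC 0) (z := zC 2) heis20).map fK

noncomputable def gK (j : ℕ) : KK := fK ⟨gam j, gam_mem j⟩

theorem gK_mem (j : ℕ) : gK j ∈ Subgroup.closure {g | ∃ i a, g = kK i a} := by
  have h1 : (⟨gam j, gam_mem j⟩ : CC) ∈
      Subgroup.closure (((↑) : CC → PG) ⁻¹' {g | ∃ i a, g = kk i a}) := by
    have : Subgroup.closure (((↑) : CC → PG) ⁻¹' {g | ∃ i a, g = kk i a}) = ⊤ :=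
      Subgroup.closure_closure_coe_preimage
    rw [this]; trivial
  have h2 : gK j ∈ (Subgroup.closure (((↑) : CC → PG) ⁻¹' {g | ∃ i a, g = kk i a})).map fK :=
    Subgroup.mem_map_of_mem fK h1
  rw [MonoidHom.map_closure] at h2
  refine Subgroup.closure_mono ?_ h2
  rintro _ ⟨c, hc, rfl⟩
  obtain ⟨i, a, hia⟩ := hc
  exact ⟨i, a, congrArg fK (Subtype.ext hia)⟩

noncomputable def sK : KK := ⟨tr sw, Subgroup.subset_closure ⟨none, rfl⟩⟩

theorem sK_sq : sK * sK = 1 := by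
  apply Subtype.ext
  change tr sw * tr sw = 1
  rw [← map_mul, sw_sw, map_one]

/-- The conjugated swap. -/
theorem conj_swap (g : PG) (N : ℕ) (b : Bool) (x : GG N) :
    (ff g * tr sw * (ff g)⁻¹) (ee ⟨N, b, x⟩)
      = if x = g N then ee ⟨N, !b, x⟩ else ee ⟨N, b, x⟩ := by
  classical
  rw [← map_inv]
  change ff g (tr sw (ff g⁻¹ (ee ⟨N, b, x⟩))) = _
  rw [ff_apply, tr_apply, sw_apply]
  by_cases h : x = g N
  · rw [if_pos h]
    have : g⁻¹ N * x = 1 := by rw [h]; exact inv_mul_cancel (g N)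
    rw [this, swf_one, ff_apply, mul_one, h]
  · rw [if_neg h]
    have : g⁻¹ N * x ≠ 1 := by
      intro h2
      apply h
      exact (inv_mul_eq_one.1 h2).symm
    rw [swf_ne _ _ _ this, ff_apply]
    congr 3
    exact mul_inv_cancel_left (g N) x

theorem ghost_zero (i j : ℕ) (hij : i ≠ j) (x : ℕ) (hx : max i j ≤ (ee.symm x).1) :
    ((1 - U (ff (gam i) * tr sw * (ff (gam i))⁻¹)) * (1 - U (ff (gam j) * tr sw * (ff (gam j))⁻¹)))
      (ev x) = 0 := by
  obtain ⟨⟨N, b, g⟩, rfl⟩ := ee.surjective x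
  rw [ee.symm_apply_apply] at hx
  have hne : gam i N ≠ gam j N :=
    gam_ne i j N (le_trans (le_max_left _ _) hx) (le_trans (le_max_right _ _) hx) hij
  have h1 : ∀ (σ : Equiv.Perm ℕ) (y : ℕ), (1 - U σ) (ev y) = ev y - ev (σ y) := by
    intro σ y
    change ev y - U σ (ev y) = _
    rw [U_ev]
  change (1 - U (ff (gam i) * tr sw * (ff (gam i))⁻¹))
    ((1 - U (ff (gam j) * tr sw * (ff (gam j))⁻¹)) (ev (ee ⟨N, b, g⟩))) = 0
  rw [h1, conj_swap]
  by_cases h : g = gam j N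
  · rw [if_pos h]
    have h2 : ¬ (g = gam i N) := fun h3 => hne (h3.symm.trans h)
    rw [map_sub, h1, h1, conj_swap, conj_swap, if_neg h2, if_neg h2, sub_self, sub_self, sub_self]
  · rw [if_neg h, sub_self, map_zero]

theorem inP_U (σ : KK) : InP Gr (U (σ : Equiv.Perm ℕ)) :=
  InP.U (fp_closure ss ss_inv σ σ.2)

section Pi

variable {H : Type*} [NormedAddCommGroup H] [InnerProductSpace ℂ H] [CompleteSpace H]

theorem boundary_gap (P Gh : Set (E2 →L[ℂ] E2))
    (hP : ∀ T, T ∈ P ↔ ∃ R : ℕ, ∀ x y : ℕ, inner ℂ (ev y) (T (ev x)) ≠ 0 → Gr.edist x y ≤ (R : ℕ∞))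
    (hGh : ∀ T, T ∈ Gh ↔ ∀ ε : ℝ, 0 < ε → ∃ F : Finset ℕ, ∀ x y : ℕ, x ∉ F →
      ‖inner ℂ (ev y) (T (ev x))‖ < ε)
    (π : (E2 →L[ℂ] E2) → (H →L[ℂ] H))
    (h1 : ∀ S ∈ P, ∀ T ∈ P, π (S + T) = π S + π T ∧ π (S * T) = π S * π T)
    (h2 : ∀ a : ℂ, ∀ T ∈ P, π (a • T) = a • π T)
    (h3 : ∀ T ∈ P, π (star T) = star (π T))
    (h4 : ∀ T ∈ P, T ∈ Gh → π T = 0) :
    spectrum ℂ (π (LL ss)) ⊆ {z : ℂ | z = 0 ∨ (z.im = 0 ∧ (1 / 2 : ℝ) ≤ z.re)} := by
  have hPU : ∀ σ : KK, U (σ : Equiv.Perm ℕ) ∈ P := fun σ => (hP _).2 (inP_U σ)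
  have hP1 : (1 : E2 →L[ℂ] E2) ∈ P := by
    have := hPU 1
    rwa [show ((1 : KK) : Equiv.Perm ℕ) = 1 from rfl, U_one] at this
  have hPadd : ∀ S ∈ P, ∀ T ∈ P, S + T ∈ P := fun S hS T hT =>
    (hP _).2 (InP.add ((hP S).1 hS) ((hP T).1 hT))
  have hPsm : ∀ a : ℂ, ∀ T ∈ P, a • T ∈ P := fun a T hT =>
    (hP _).2 (InP.smul a ((hP T).1 hT))
  have hPsub : ∀ S ∈ P, ∀ T ∈ P, S - T ∈ P := fun S hS T hT => by
    have : S - T = S + (-1 : ℂ) • T := by rw [neg_one_smul, sub_eq_add_neg]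
    rw [this]
    exact hPadd S hS _ (hPsm _ T hT)
  have hP0 : (0 : E2 →L[ℂ] E2) ∈ P := (hP _).2 InP.zero
  have π0 : π 0 = 0 := by
    have := h2 0 0 hP0
    rwa [zero_smul, zero_smul] at this
  have πsub : ∀ S ∈ P, ∀ T ∈ P, π (S - T) = π S - π T := fun S hS T hT => by
    have e : S - T = S + (-1 : ℂ) • T := by rw [neg_one_smul, sub_eq_add_neg]
    rw [e, (h1 S hS _ (hPsm _ T hT)).1, h2 _ T hT, neg_one_smul, sub_eq_add_neg]
  have πsum : ∀ (t : Finset (Option (Fin 3 × ZMod 5)))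
      (f : Option (Fin 3 × ZMod 5) → (E2 →L[ℂ] E2)), (∀ i, f i ∈ P) →
      π (∑ i ∈ t, f i) = ∑ i ∈ t, π (f i) ∧ (∑ i ∈ t, f i) ∈ P := by
    intro t f hf
    classical
    induction t using Finset.induction_on with
    | empty => simp [π0, hP0]
    | insert a t ha ih =>
      rw [sum_insert ha, sum_insert ha]
      refine ⟨?_, hPadd _ (hf a) _ ih.2⟩
      rw [(h1 _ (hf a) _ ih.2).1, ih.1]
  let V : KK → (H →L[ℂ] H) := fun q => π (U (q : Equiv.Perm ℕ))
  have hV : IsRep V := by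
    constructor
    · intro a b
      change π (U ((a : Equiv.Perm ℕ) * (b : Equiv.Perm ℕ))) = _
      rw [U_mul, (h1 _ (hPU a) _ (hPU b)).2]
    · intro a
      change star (π (U (a : Equiv.Perm ℕ))) = π (U ((a : Equiv.Perm ℕ)⁻¹))
      rw [← h3 _ (hPU a), U_star]
  have hV1 : V 1 = π 1 := by
    change π (U 1) = π 1
    rw [U_one]
  have hLL : π (LL ss) = (5 : ℝ) • ((V 1 - avg (fun a => V (kK 0 a)))
      + (V 1 - avg (fun a => V (kK 1 a)))
      + (V 1 - avg (fun a => V (kK 2 a)))) + (V 1 - V sK) := by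
    have e1 : π (LL ss) = ∑ i, (π (1 - U (ss i))) := by
      unfold LL
      refine (πsum univ (fun i => 1 - U (ss i)) ?_).1
      intro i
      exact hPsub _ hP1 _ (hPU ⟨ss i, Subgroup.subset_closure ⟨i, rfl⟩⟩)
    have e2 : ∀ i, π (1 - U (ss i)) = V 1 - V ⟨ss i, Subgroup.subset_closure ⟨i, rfl⟩⟩ := by
      intro i
      rw [πsub _ hP1 _ (hPU ⟨ss i, Subgroup.subset_closure ⟨i, rfl⟩⟩), hV1]
    have e3 : ∀ i : Fin 3, ∑ a, (V 1 - V (kK i a)) = (5 : ℝ) • (V 1 - avg (fun a => V (kK i a))) := by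
      intro i
      rw [sum_sub_distrib, smul_sub]
      congr 1
      · rw [sum_const, card_univ, ZMod.card]
        rw [← Nat.cast_smul_eq_nsmul ℝ]
        norm_num
      · unfold avg
        rw [smul_smul]
        norm_num
    rw [e1]
    simp_rw [e2]
    rw [Fintype.sum_option, Fintype.sum_prod_type, Fin.sum_univ_three]
    rw [add_comm]
    congr 1
    rw [smul_add, smul_add, ← e3 0, ← e3 1, ← e3 2]
    rfl
  rw [hLL]
  apply rep_gap hV kK zK hK01 hK12 hK20 sK sK_sq gK gK_mem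
  intro i j hij
  set A : Equiv.Perm ℕ := ff (gam i) * tr sw * (ff (gam i))⁻¹ with hA
  set B : Equiv.Perm ℕ := ff (gam j) * tr sw * (ff (gam j))⁻¹ with hB
  have hAP : U A ∈ P := hPU (gK i * sK * (gK i)⁻¹)
  have hBP : U B ∈ P := hPU (gK j * sK * (gK j)⁻¹)
  have hA1 : (1 - U A) ∈ P := hPsub _ hP1 _ hAP
  have hB1 : (1 - U B) ∈ P := hPsub _ hP1 _ hBP
  have hABP : U (A * B) ∈ P :=
    hPU ((gK i * sK * (gK i)⁻¹) * (gK j * sK * (gK j)⁻¹))
  have e5 : (1 - U A) * (1 - U B) = (1 - U A) - (U B - U (A * B)) := by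
    rw [U_mul]; noncomm_ring
  have hprodP : (1 - U A) * (1 - U B) ∈ P := by
    rw [e5]
    exact hPsub _ hA1 _ (hPsub _ hBP _ hABP)
  have hghost : (1 - U A) * (1 - U B) ∈ Gh := by
    rw [hGh]
    intro ε hε
    refine ⟨((Set.finite_lt_nat (max i j)).biUnion (fun n _ => level_finite n)).toFinset, ?_⟩
    intro x y hx
    have hx2 : max i j ≤ (ee.symm x).1 := by
      by_contra hcon
      apply hx
      rw [Set.Finite.mem_toFinset]
      exact Set.mem_biUnion (x := (ee.symm x).1) (not_le.1 hcon) rfl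
    rw [ghost_zero i j hij x hx2]
    simpa using hε
  have hz := h4 _ hprodP hghost
  change (π (U 1) - π (U A)) * (π (U 1) - π (U B)) = 0
  rw [U_one, ← πsub _ hP1 _ hAP, ← πsub _ hP1 _ hBP, ← (h1 _ hA1 _ hB1).2, hz]

end Pi

end Pool.Agent.Helper78
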