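import Mathlib

set_option autoImplicit false

namespace Pool.Agent.Helper78.Gam

open Finset

variable {W κ : Type} [DecidableEq W] [Fintype κ]

/-- indices whose set lies inside `J` -/
def inn (N : κ → Finset W) (J : Finset W) : Finset κ := univ.filter (fun k => N k ⊆ J)

/-- the submodular function of the presentation -/
def cc (N : κ → Finset W) (J : Finset W) : ℤ := (J.card : ℤ) - ((inn N J).card : ℤ)

/-- independent sets of the strict gammoid presented by `N` -/
def Ind (N : κ → Finset W) (T : Finset W) : Prop :=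
  ∀ J : Finset W, ((T ∩ J).card : ℤ) ≤ cc N J

variable {N : κ → Finset W}

theorem mem_inn {J : Finset W} {k : κ} : k ∈ inn N J ↔ N k ⊆ J := by
  unfold inn; simp

theorem cc_submod (J J' : Finset W) : cc N (J ∪ J') + cc N (J ∩ J') ≤ cc N J + cc N J' := by
  classical
  unfold cc
  have h1 := card_union_add_card_inter J J'
  have h2 : inn N (J ∩ J') = inn N J ∩ inn N J' := by
    ext k; simp only [mem_inn, mem_inter, subset_inter_iff]
  have h3 : inn N J ∪ inn N J' ⊆ inn N (J ∪ J') := by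
    intro k hk
    rw [mem_union, mem_inn, mem_inn] at hk
    rw [mem_inn]
    rcases hk with hk | hk
    · exact hk.trans subset_union_left
    · exact hk.trans subset_union_right
  have h4 := card_le_card h3
  have h5 := card_union_add_card_inter (inn N J) (inn N J')
  rw [h2]
  omega

theorem Ind.mono {S T : Finset W} (h : Ind N T) (hST : S ⊆ T) : Ind N S := by
  intro J
  refine le_trans ?_ (h J)
  exact_mod_cast card_le_card (inter_subset_inter_right hST)

theorem Ind.card_le {S J : Finset W} (h : Ind N S) (hSJ : S ⊆ J) : (S.card : ℤ) ≤ cc N J := by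
  have := h J
  rwa [inter_eq_left.2 hSJ] at this

/-- a matching of all indices avoiding the sinks `S` -/
structure Mat (N : κ → Finset W) (S : Finset W) (μ : κ → W) : Prop where
  inj : Function.Injective μ
  mem : ∀ k, μ k ∈ N k
  avoid : ∀ k, μ k ∉ S

theorem Ind.exists_mat {S : Finset W} (h : Ind N S) : ∃ μ, Mat N S μ := by
  classical
  have := (Finset.all_card_le_biUnion_card_iff_exists_injective (fun k : κ => N k \ S)).1 (by
    intro A
    set J := A.biUnion N with hJ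
    have h1 := h J
    have h2 : A ⊆ inn N J := by
      intro k hk
      rw [mem_inn]
      exact subset_biUnion_of_mem N hk
    have h3 := card_le_card h2
    have h4 : A.biUnion (fun k => N k \ S) = J \ S := by
      ext w
      simp only [hJ, mem_biUnion, mem_sdiff]
      constructor
      · rintro ⟨k, hk, h1, h2⟩; exact ⟨⟨k, hk, h1⟩, h2⟩
      · rintro ⟨⟨k, hk, h1⟩, h2⟩; exact ⟨k, hk, h1, h2⟩
    rw [h4]
    have h5 := card_sdiff_add_card_inter J S
    rw [inter_comm] at h5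
    unfold cc at h1
    omega)
  obtain ⟨μ, hμ, hm⟩ := this
  exact ⟨μ, hμ, fun k => (mem_sdiff.1 (hm k)).1, fun k => (mem_sdiff.1 (hm k)).2⟩

/-- exits of `J` -/
def ex (N : κ → Finset W) (μ : κ → W) (J : Finset W) : Finset W := J \ (inn N J).image μ

theorem mem_ex {μ : κ → W} {J : Finset W} {w : W} :
    w ∈ ex N μ J ↔ w ∈ J ∧ ∀ k, N k ⊆ J → μ k ≠ w := by
  unfold ex
  rw [mem_sdiff, mem_image]
  constructor
  · rintro ⟨h1, h2⟩
    exact ⟨h1, fun k hk e => h2 ⟨k, mem_inn.2 hk, e⟩⟩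
  · rintro ⟨h1, h2⟩
    exact ⟨h1, fun ⟨k, hk, e⟩ => h2 k (mem_inn.1 hk) e⟩

variable {S : Finset W} {μ : κ → W}

theorem Mat.card_ex (h : Mat N S μ) (J : Finset W) : ((ex N μ J).card : ℤ) = cc N J := by
  unfold ex cc
  have h1 : (inn N J).image μ ⊆ J := by
    intro w hw
    obtain ⟨k, hk, rfl⟩ := mem_image.1 hw
    exact (mem_inn.1 hk) (h.mem k)
  have h2 := card_sdiff_add_card_eq_card h1
  rw [card_image_of_injective _ h.inj] at h2
  omega

theorem ex_sub {J : Finset W} : ex N μ J ⊆ J := sdiff_subset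

theorem ex_mono {G J : Finset W} (hG : G ⊆ J) {w : W} (hw : w ∈ G) (he : w ∈ ex N μ J) :
    w ∈ ex N μ G := by
  rw [mem_ex] at he ⊢
  exact ⟨hw, fun k hk => he.2 k (hk.trans hG)⟩

theorem Mat.sink_ex (h : Mat N S μ) {J : Finset W} {w : W} (hw : w ∈ S) (hJ : w ∈ J) :
    w ∈ ex N μ J := by
  rw [mem_ex]
  exact ⟨hJ, fun k _ e => h.avoid k (e ▸ hw)⟩

theorem Mat.ex_inter (h : Mat N S μ) {J J' : Finset W} {w : W} (hw : w ∈ ex N μ (J ∩ J')) :
    w ∈ ex N μ J ∨ w ∈ ex N μ J' := by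
  by_contra hcon
  push Not at hcon
  obtain ⟨h1, h2⟩ := hcon
  rw [mem_ex] at h1 h2 hw
  have hw1 := mem_inter.1 hw.1
  push Not at h1 h2
  obtain ⟨k, hk, e⟩ := h1 hw1.1
  obtain ⟨k', hk', e'⟩ := h2 hw1.2
  have : k = k' := h.inj (e.trans e'.symm)
  subst this
  exact hw.2 k (subset_inter hk hk') e

theorem Mat.cc_nonneg (h : Mat N S μ) (J : Finset W) : 0 ≤ cc N J := by
  rw [← h.card_ex J]; exact Int.natCast_nonneg _

/-- the data of a hyperplane `JH` with basis `S`, and points `C` outside -/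
structure Cfg (N : κ → Finset W) (JH S C : Finset W) : Prop where
  sub : S ⊆ JH
  card : cc N JH = S.card
  notMem : ∀ x ∈ C, x ∉ S
  ind : ∀ x ∈ C, Ind N (insert x S)

variable {JH C : Finset W}

theorem Cfg.notMem_JH (h : Cfg N JH S C) {x : W} (hx : x ∈ C) : x ∉ JH := by
  intro hJ
  have h1 := (h.ind x hx).card_le (J := JH) (insert_subset hJ h.sub)
  rw [card_insert_of_notMem (h.notMem x hx), h.card] at h1
  push_cast at h1
  omega

theorem Cfg.cc_inter (h : Cfg N JH S C) {x : W} (hx : x ∈ C) {J : Finset W} (hJ : x ∈ J) :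
    cc N (J ∩ JH) ≤ cc N J - 1 := by
  have h1 := (h.ind x hx).card_le (J := J ∪ JH)
    (insert_subset (mem_union_left _ hJ) (h.sub.trans subset_union_right))
  rw [card_insert_of_notMem (h.notMem x hx)] at h1
  have h2 := cc_submod (N := N) J JH
  rw [h.card] at h2
  push_cast at h1
  omega

theorem Cfg.ex_JH (h : Cfg N JH S C) (hμ : Mat N S μ) : ex N μ JH = S := by
  symm
  apply eq_of_subset_of_card_le
  · intro w hw; exact hμ.sink_ex hw (h.sub hw)
  · have := hμ.card_ex JH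
    rw [h.card] at this
    exact_mod_cast this.le

/-- inside exits -/
theorem Cfg.ex_inside (h : Cfg N JH S C) (hμ : Mat N S μ) {J : Finset W} {w : W} :
    w ∈ ex N μ (J ∩ JH) ↔ w ∈ ex N μ J ∧ w ∈ JH := by
  constructor
  · intro hw
    have hwJ : w ∈ J ∩ JH := ex_sub hw
    refine ⟨?_, (mem_inter.1 hwJ).2⟩
    rcases hμ.ex_inter hw with h1 | h1
    · exact h1
    · rw [h.ex_JH hμ] at h1
      exact hμ.sink_ex h1 (mem_inter.1 hwJ).1
  · rintro ⟨h1, h2⟩
    exact ex_mono inter_subset_left (mem_inter.2 ⟨ex_sub h1, h2⟩) h1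

/-- number of outside exits -/
theorem Cfg.card_outside (h : Cfg N JH S C) (hμ : Mat N S μ) (J : Finset W) :
    ((ex N μ J \ JH).card : ℤ) = cc N J - cc N (J ∩ JH) := by
  have h1 : ex N μ J ∩ JH = ex N μ (J ∩ JH) := by
    ext w; rw [mem_inter, h.ex_inside hμ]
  have h2 := card_sdiff_add_card_inter (ex N μ J) JH
  rw [h1] at h2
  have h3 := hμ.card_ex J
  have h4 := hμ.card_ex (J ∩ JH)
  omega

theorem Cfg.exists_outside (h : Cfg N JH S C) (hμ : Mat N S μ) {J : Finset W} {x : W}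
    (hx : x ∈ C) (hJ : x ∈ J) : ∃ w ∈ ex N μ J, w ∉ JH := by
  have h1 := h.card_outside hμ J
  have h2 := h.cc_inter hx hJ
  have h3 : 0 < (ex N μ J \ JH).card := by omega
  obtain ⟨w, hw⟩ := card_pos.1 h3
  exact ⟨w, (mem_sdiff.1 hw).1, (mem_sdiff.1 hw).2⟩

/-- for a line `J` through a point of `JH` and a point of `C`: exactly one outside exit -/
theorem Cfg.cc_line (h : Cfg N JH S C) {J : Finset W} {x f : W} (hx : x ∈ C) (hJ : x ∈ J)
    (hf : f ∈ JH) (hfJ : f ∈ J) (hif : Ind N {f}) (h2 : cc N J = 2) : cc N (J ∩ JH) = 1 := by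
  have h3 := h.cc_inter hx hJ
  have h4 := hif.card_le (J := J ∩ JH) (by
    rw [singleton_subset_iff]; exact mem_inter.2 ⟨hfJ, hf⟩)
  rw [card_singleton] at h4
  push_cast at h4
  omega

theorem Cfg.line_exit (h : Cfg N JH S C) (hμ : Mat N S μ) {J : Finset W} {x f : W} (hx : x ∈ C)
    (hJ : x ∈ J) (hf : f ∈ JH) (hfJ : f ∈ J) (hif : Ind N {f}) (h2 : cc N J = 2) :
    ∃ e, ex N μ J \ JH = {e} := by
  have h3 := h.cc_line hx hJ hf hfJ hif h2
  have h4 := h.card_outside hμ J
  exact card_eq_one.1 (by omega)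

/-- the largest low set containing the exit `e` -/
theorem Mat.exists_big (hμ : Mat N S μ) {J : Finset W} {e : W} (he : e ∈ ex N μ J) :
    ∃ G ⊆ J, e ∈ G ∧ cc N G = 1 ∧ ∀ G' ⊆ J, e ∈ G' → cc N G' ≤ 1 → G' ⊆ G := by
  classical
  have hne : (J.powerset.filter (fun G => e ∈ G ∧ cc N G ≤ 1)).Nonempty := by
    refine ⟨{e}, ?_⟩
    rw [mem_filter, mem_powerset, singleton_subset_iff]
    refine ⟨ex_sub he, mem_singleton_self _, ?_⟩
    unfold cc
    rw [card_singleton]
    push_cast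
    have : (0:ℤ) ≤ ((inn N {e}).card : ℤ) := Int.natCast_nonneg _
    omega
  obtain ⟨G, hG, hmax⟩ := exists_max_image _ (fun G => G.card) hne
  rw [mem_filter, mem_powerset] at hG
  have low : ∀ G' ⊆ J, e ∈ G' → 1 ≤ cc N G' := by
    intro G' h1 h2
    rw [← hμ.card_ex G']
    have : 0 < (ex N μ G').card := card_pos.2 ⟨e, ex_mono h1 h2 he⟩
    omega
  refine ⟨G, hG.1, hG.2.1, le_antisymm hG.2.2 (low G hG.1 hG.2.1), ?_⟩
  intro G' h1 h2 h3
  have h4 := cc_submod (N := N) G G'
  have h5 := low (G ∩ G') (inter_subset_left.trans hG.1) (mem_inter.2 ⟨hG.2.1, h2⟩)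
  have h6 : G ∪ G' ∈ J.powerset.filter (fun G => e ∈ G ∧ cc N G ≤ 1) := by
    rw [mem_filter, mem_powerset]
    exact ⟨union_subset hG.1 h1, mem_union_left _ hG.2.1, by omega⟩
  have h7 := hmax _ h6
  have h8 : G = G ∪ G' := eq_of_subset_of_card_le subset_union_left h7
  rw [h8]
  exact subset_union_right

/-- the crossing argument: two lines through different points of `JH` -/
theorem Cfg.cross (h : Cfg N JH S C) (hμ : Mat N S μ) {J J' : Finset W} {f f' e e' : W}
    (hf : f ∈ JH) (hfJ : f ∈ J) (hf' : f' ∈ JH) (hfJ' : f' ∈ J')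
    (hff : f ≠ f') (hiff : Ind N {f, f'})
    (hJ1 : cc N (J ∩ JH) = 1) (hJ1' : cc N (J' ∩ JH) = 1)
    (he : ex N μ J \ JH = {e}) (he' : ex N μ J' \ JH = {e'})
    {v : W} (hv : v ∈ ex N μ (J ∩ J')) : v = e ∨ v = e' := by
  by_cases hvH : v ∈ JH
  · exfalso
    have h1 : v ∈ ex N μ ((J ∩ JH) ∩ (J' ∩ JH)) := by
      refine ex_mono ?_ ?_ hv
      · intro w hw
        simp only [mem_inter] at hw ⊢
        exact ⟨hw.1.1, hw.2.1⟩
      · have := ex_sub hv
        simp only [mem_inter] at this ⊢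
        exact ⟨⟨this.1, hvH⟩, this.2, hvH⟩
    have h2 := hμ.card_ex ((J ∩ JH) ∩ (J' ∩ JH))
    have h3 : 0 < (ex N μ ((J ∩ JH) ∩ (J' ∩ JH))).card := card_pos.2 ⟨v, h1⟩
    have h4 := cc_submod (N := N) (J ∩ JH) (J' ∩ JH)
    have h5 := hiff.card_le (J := (J ∩ JH) ∪ (J' ∩ JH)) (by
      intro w hw
      rw [mem_insert, mem_singleton] at hw
      rcases hw with rfl | rfl
      · exact mem_union_left _ (mem_inter.2 ⟨hfJ, hf⟩)
      · exact mem_union_right _ (mem_inter.2 ⟨hfJ', hf'⟩))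
    rw [card_pair hff] at h5
    push_cast at h5
    omega
  · rcases hμ.ex_inter hv with h1 | h1
    · left
      have : v ∈ ex N μ J \ JH := mem_sdiff.2 ⟨h1, hvH⟩
      rw [he] at this
      exact mem_singleton.1 this
    · right
      have : v ∈ ex N μ J' \ JH := mem_sdiff.2 ⟨h1, hvH⟩
      rw [he'] at this
      exact mem_singleton.1 this

end Pool.Agent.Helper78.Gam
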