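import Mathlib
import Pool.Agent.Helper78.GamCore

set_option autoImplicit false

namespace Pool.Agent.Helper78.Gam

open Finset

variable {W κ : Type} [DecidableEq W] [Fintype κ]
variable {N : κ → Finset W} {S JH C : Finset W} {μ : κ → W}

theorem Mat.mono {S' : Finset W} (h : Mat N S μ) (hS : S' ⊆ S) : Mat N S' μ :=
  ⟨h.inj, h.mem, fun k hk => h.avoid k (hS hk)⟩

theorem exists_line {f x y : W} (hfx : Ind N {f, x}) (hfy : Ind N {f, y}) (hxy : Ind N {x, y})
    (hf : f ≠ x) (hf' : f ≠ y) (hxy' : x ≠ y) (h : ¬ Ind N {f, x, y}) :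
    ∃ J, f ∈ J ∧ x ∈ J ∧ y ∈ J ∧ cc N J = 2 := by
  unfold Ind at h
  push Not at h
  obtain ⟨J, hJ⟩ := h
  have key : ∀ P : Finset W, Ind N P → ¬ (({f, x, y} : Finset W) ∩ J ⊆ P) := by
    intro P hP hsub
    have h1 := hP J
    have h2 : ({f, x, y} : Finset W) ∩ J ⊆ P ∩ J :=
      subset_inter hsub inter_subset_right
    have h3 := card_le_card h2
    omega
  have hfJ : f ∈ J := by
    by_contra hc
    apply key _ hxy
    intro w hw
    rw [mem_inter, mem_insert] at hw
    rcases hw.1 with rfl | h1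
    · exact absurd hw.2 hc
    · exact h1
  have hxJ : x ∈ J := by
    by_contra hc
    apply key _ hfy
    intro w hw
    rw [mem_inter, mem_insert, mem_insert] at hw
    rcases hw.1 with rfl | rfl | h1
    · exact mem_insert_self _ _
    · exact absurd hw.2 hc
    · exact mem_insert_of_mem h1
  have hyJ : y ∈ J := by
    by_contra hc
    apply key _ hfx
    intro w hw
    rw [mem_inter, mem_insert, mem_insert, mem_singleton] at hw
    rcases hw.1 with rfl | rfl | rfl
    · exact mem_insert_self _ _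
    · exact mem_insert_of_mem (mem_singleton_self _)
    · exact absurd hw.2 hc
  refine ⟨J, hfJ, hxJ, hyJ, ?_⟩
  have h1 := hxy.card_le (J := J) (by
    intro w hw
    rw [mem_insert, mem_singleton] at hw
    rcases hw with rfl | rfl
    · exact hxJ
    · exact hyJ)
  rw [card_pair hxy'] at h1
  have h2 : (({f, x, y} : Finset W) ∩ J).card ≤ 3 :=
    (card_le_card inter_subset_left).trans card_le_three
  push_cast at h1
  omega

/-- The far lemma. -/
theorem far (h : Cfg N JH S C) {x0 : W} (hx0 : x0 ∈ C) (Hs : Finset W) (hHs : Hs ⊆ JH)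
    (hff : ∀ f ∈ Hs, ∀ f' ∈ Hs, f ≠ f' → Ind N {f, f'})
    (hfx : ∀ f ∈ Hs, ∀ x ∈ C, Ind N {f, x})
    (hffx : ∀ f ∈ Hs, ∀ f' ∈ Hs, f ≠ f' → ∀ x ∈ C, Ind N {f, f', x})
    (hxy : ∀ x ∈ C, ∀ y ∈ C, x ≠ y → Ind N {x, y}) :
    ∃ Far : W → Finset W, (∀ f ∈ Hs, Far f ⊆ C.erase x0) ∧
      (∀ f ∈ Hs, ∀ f' ∈ Hs, f ≠ f' → Disjoint (Far f) (Far f')) ∧
      (∀ f ∈ Hs, ∀ x ∈ C \ Far f, ∀ y ∈ C \ Far f, x ≠ y → Ind N {f, x, y}) := by
  classical
  obtain ⟨μ, hμ'⟩ := (h.ind x0 hx0).exists_mat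
  have hμ : Mat N S μ := hμ'.mono (subset_insert _ _)
  set Far : W → Finset W := fun f => C.filter (fun x => ∃ J, cc N J = 2 ∧ f ∈ J ∧ x ∈ J ∧
    ∀ e, ex N μ J \ JH = {e} → ∀ G, G ⊆ J → e ∈ G → cc N G ≤ 1 → x ∉ G) with hFar
  have hline : ∀ f ∈ Hs, ∀ x ∈ C, ∀ J, cc N J = 2 → f ∈ J → x ∈ J →
      cc N (J ∩ JH) = 1 ∧ ∃ e, ex N μ J \ JH = {e} := by
    intro f hf x hx J hJ hfJ hxJ
    have hi : Ind N {f} := (hfx f hf x hx).mono (by
      rw [singleton_subset_iff]; exact mem_insert_self _ _)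
    exact ⟨h.cc_line hx hxJ (hHs hf) hfJ hi hJ, h.line_exit hμ hx hxJ (hHs hf) hfJ hi hJ⟩
  refine ⟨Far, ?_, ?_, ?_⟩
  · intro f hf x hx
    rw [hFar, mem_filter] at hx
    obtain ⟨hxC, J, hJ, hfJ, hxJ, hfar⟩ := hx
    rw [mem_erase]
    refine ⟨?_, hxC⟩
    rintro rfl
    obtain ⟨-, e, he⟩ := hline f hf x hxC J hJ hfJ hxJ
    have h1 : x ∈ ex N μ J \ JH :=
      mem_sdiff.2 ⟨hμ'.sink_ex (mem_insert_self _ _) hxJ, h.notMem_JH hxC⟩
    rw [he, mem_singleton] at h1
    subst h1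
    refine hfar x he {x} (singleton_subset_iff.2 hxJ) (mem_singleton_self _) ?_
      (mem_singleton_self _)
    unfold cc
    rw [card_singleton]
    have : (0:ℤ) ≤ ((inn N {x}).card : ℤ) := Int.natCast_nonneg _
    push_cast
    omega
  · intro f hf f' hf' hne
    rw [disjoint_left]
    intro x hx hx'
    rw [hFar, mem_filter] at hx hx'
    obtain ⟨hxC, J, hJ, hfJ, hxJ, hfar⟩ := hx
    obtain ⟨-, J', hJ', hfJ', hxJ', hfar'⟩ := hx'
    obtain ⟨h1, e, he⟩ := hline f hf x hxC J hJ hfJ hxJ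
    obtain ⟨h1', e', he'⟩ := hline f' hf' x hxC J' hJ' hfJ' hxJ'
    have hxH := h.notMem_JH hxC
    have h2 := (hffx f hf f' hf' hne x hxC).card_le (J := J ∪ J') (by
      intro w hw
      rw [mem_insert, mem_insert, mem_singleton] at hw
      rcases hw with rfl | rfl | rfl
      · exact mem_union_left _ hfJ
      · exact mem_union_right _ hfJ'
      · exact mem_union_left _ hxJ)
    have h3 : ({f, f', x} : Finset W).card = 3 := by
      rw [card_eq_three]
      refine ⟨f, f', x, hne, ?_, ?_, rfl⟩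
      · rintro rfl; exact hxH (hHs hf)
      · rintro rfl; exact hxH (hHs hf')
    rw [h3] at h2
    have h4 := cc_submod (N := N) J J'
    have hi : Ind N {x} := (hfx f hf x hxC).mono (by
      rw [singleton_subset_iff]; exact mem_insert_of_mem (mem_singleton_self _))
    have h5 := hi.card_le (J := J ∩ J') (singleton_subset_iff.2 (mem_inter.2 ⟨hxJ, hxJ'⟩))
    rw [card_singleton] at h5
    push_cast at h2 h5
    have h6 : cc N (J ∩ J') = 1 := by omega
    have h7 := hμ.card_ex (J ∩ J')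
    obtain ⟨v, hv⟩ := card_pos.1 (show 0 < (ex N μ (J ∩ J')).card by omega)
    have hvJ := mem_inter.1 (ex_sub hv)
    rcases h.cross hμ (hHs hf) hfJ (hHs hf') hfJ' hne (hff f hf f' hf' hne) h1 h1' he he' hv
      with rfl | rfl
    · exact hfar v he (J ∩ J') inter_subset_left (ex_sub hv) h6.le (mem_inter.2 ⟨hxJ, hxJ'⟩)
    · exact hfar' v he' (J ∩ J') inter_subset_right (ex_sub hv) h6.le (mem_inter.2 ⟨hxJ, hxJ'⟩)
  · intro f hf x hx y hy hne
    rw [mem_sdiff] at hx hy
    by_contra hcon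
    have hxH := h.notMem_JH hx.1
    have hyH := h.notMem_JH hy.1
    obtain ⟨J, hfJ, hxJ, hyJ, hJ⟩ := exists_line (hfx f hf x hx.1) (hfx f hf y hy.1)
      (hxy x hx.1 y hy.1 hne) (by rintro rfl; exact hxH (hHs hf))
      (by rintro rfl; exact hyH (hHs hf)) hne hcon
    obtain ⟨-, e, he⟩ := hline f hf x hx.1 J hJ hfJ hxJ
    have hx2 := hx.2
    have hy2 := hy.2
    simp only [hFar, mem_filter, not_and, not_exists] at hx2 hy2
    have hx3 := hx2 hx.1 J hJ hfJ hxJ
    have hy3 := hy2 hy.1 J hJ hfJ hyJ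
    push Not at hx3 hy3
    obtain ⟨e1, he1, G, hG, heG, hG1, hxG⟩ := hx3
    obtain ⟨e2, he2, G', hG', heG', hG1', hyG'⟩ := hy3
    have e1e : e1 = e := by
      rw [he] at he1; exact (singleton_injective he1).symm
    have e2e : e2 = e := by
      rw [he] at he2; exact (singleton_injective he2).symm
    subst e1e
    subst e2e
    have hee : e2 ∈ ex N μ J := by
      have : e2 ∈ ex N μ J \ JH := by rw [he]; exact mem_singleton_self _
      exact (mem_sdiff.1 this).1
    obtain ⟨B, hB, heB, hB1, hBmax⟩ := hμ.exists_big hee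
    have h1 := (hxy x hx.1 y hy.1 hne).card_le (J := B) (by
      intro w hw
      rw [mem_insert, mem_singleton] at hw
      rcases hw with rfl | rfl
      · exact hBmax G hG heG hG1 hxG
      · exact hBmax G' hG' heG' hG1' hyG')
    rw [card_pair hne, hB1] at h1
    norm_num at h1

end Pool.Agent.Helper78.Gam
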