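import Mathlib
import Pool.Agent.Helper78.GamFar

set_option autoImplicit false

namespace Pool.Agent.Helper78.Gam

open Finset

variable {W κ : Type} [DecidableEq W] [Fintype κ]
variable {N : κ → Finset W} {S JH C : Finset W} {μ : κ → W}

omit [Fintype κ] in
/-- counting exits -/
theorem count_exits (E P A : Finset W) (T : W → Finset W) (hP : P ⊆ E)
    (hT : ∀ i ∈ A, ∃ t ∈ E, t ∈ T i) (hd : ∀ i ∈ A, ∀ l ∈ A, i ≠ l → Disjoint (T i) (T l))
    (hPT : ∀ i ∈ A, ∀ p ∈ P, p ∉ T i) : P.card + A.card ≤ E.card := by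
  classical
  choose! t ht1 ht2 using hT
  have hinj : Set.InjOn t (A : Set W) := by
    intro i hi l hl he
    by_contra hne
    exact (disjoint_left.1 (hd i hi l hl hne)) (ht2 i hi) (he ▸ ht2 l hl)
  have h1 : (A.image t).card = A.card := card_image_of_injOn hinj
  have h2 : Disjoint P (A.image t) := by
    rw [disjoint_right]
    intro w hw hwP
    obtain ⟨i, hi, rfl⟩ := mem_image.1 hw
    exact hPT i hi _ hwP (ht2 i hi)
  rw [← h1, ← card_union_of_disjoint h2]
  apply card_le_card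
  apply union_subset hP
  intro w hw
  obtain ⟨i, hi, rfl⟩ := mem_image.1 hw
  exact ht1 i hi

theorem Cfg.mu_mem_iff (h : Cfg N JH S C) (hμ : Mat N S μ) (k : κ) : μ k ∈ JH ↔ N k ⊆ JH := by
  constructor
  · intro hk
    by_contra hN
    have h1 : μ k ∉ ex N μ JH := by
      rw [h.ex_JH hμ]; exact hμ.avoid k
    rw [mem_ex] at h1
    push Not at h1
    obtain ⟨k', hk', e⟩ := h1 hk
    have := hμ.inj e
    subst this
    exact hN hk'
  · intro hk
    exact hk (hμ.mem k)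

/-- replace the outside part of a matching -/
theorem Cfg.glue {S' : Finset W} {x0 : W} (h : Cfg N JH S C) (h' : Cfg N JH S' C) {μ₀ : κ → W}
    (hx0 : x0 ∈ C) (hμ : Mat N (insert x0 S) μ) (hμ₀ : Mat N (insert x0 S') μ₀) :
    ∃ ν, Mat N (insert x0 S) ν ∧ ∀ w ∉ JH, ∀ J, w ∈ ex N ν J ↔ w ∈ ex N μ₀ J := by
  classical
  have hm := hμ.mono (subset_insert x0 S)
  have hm₀ := hμ₀.mono (subset_insert x0 S')
  refine ⟨fun k => if N k ⊆ JH then μ k else μ₀ k, ⟨?_, ?_, ?_⟩, ?_⟩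
  · intro k k' e
    simp only at e
    by_cases hk : N k ⊆ JH <;> by_cases hk' : N k' ⊆ JH
    · rw [if_pos hk, if_pos hk'] at e; exact hμ.inj e
    · rw [if_pos hk, if_neg hk'] at e
      exact absurd ((h'.mu_mem_iff hm₀ k').1 (e ▸ (h.mu_mem_iff hm k).2 hk)) hk'
    · rw [if_neg hk, if_pos hk'] at e
      exact absurd ((h'.mu_mem_iff hm₀ k).1 (e ▸ (h.mu_mem_iff hm k').2 hk')) hk
    · rw [if_neg hk, if_neg hk'] at e; exact hμ₀.inj e
  · intro k
    by_cases hk : N k ⊆ JH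
    · simp only [if_pos hk]; exact hμ.mem k
    · simp only [if_neg hk]; exact hμ₀.mem k
  · intro k
    by_cases hk : N k ⊆ JH
    · simp only [if_pos hk]; exact hμ.avoid k
    · simp only [if_neg hk]
      intro hc
      rcases mem_insert.1 hc with hc | hc
      · exact hμ₀.avoid k (hc ▸ mem_insert_self _ _)
      · exact hk ((h'.mu_mem_iff hm₀ k).1 (h.sub hc))
  · intro w hw J
    rw [mem_ex, mem_ex]
    constructor
    · rintro ⟨h1, h2⟩
      refine ⟨h1, fun k hk e => ?_⟩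
      by_cases hkJ : N k ⊆ JH
      · exact hw (e ▸ (h'.mu_mem_iff hm₀ k).2 hkJ)
      · have := h2 k hk
        simp only [if_neg hkJ] at this
        exact this e
    · rintro ⟨h1, h2⟩
      refine ⟨h1, fun k hk e => ?_⟩
      by_cases hkJ : N k ⊆ JH
      · simp only [if_pos hkJ] at e
        exact hw (e ▸ (h.mu_mem_iff hm k).2 hkJ)
      · simp only [if_neg hkJ] at e
        exact h2 k hk e

/-- The exchange lemma for a circuit `Z` of the hyperplane. -/
theorem bl (Z : Finset W) (hZ3 : 3 ≤ Z.card) (hZ : Z ⊆ JH)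
    (hcfg : ∀ j ∈ Z, Cfg N JH (Z.erase j) C) {x0 : W} (hx0 : x0 ∈ C)
    (L : W → Finset W) (p p' : W → W)
    (hp : ∀ i ∈ Z, p i ∈ C) (hp' : ∀ i ∈ Z, p' i ∈ C)
    (hi : ∀ i ∈ Z, i ∈ L i) (hpL : ∀ i ∈ Z, p i ∈ L i) (hpL' : ∀ i ∈ Z, p' i ∈ L i)
    (hL : ∀ i ∈ Z, cc N (L i) = 2)
    (hLG : ∀ i ∈ Z, ∀ G ⊆ L i, p i ∈ G → p' i ∈ G → 2 ≤ cc N G) :
    ∃ y : W → W, (∀ i ∈ Z, y i = p i ∨ y i = p' i) ∧ (∀ i ∈ Z, ∀ l ∈ Z, i ≠ l → y i ≠ y l) ∧
      (∀ i ∈ Z, y i ≠ x0) ∧
      (∀ A ⊆ Z, A.Nonempty → Ind N (A.image y ∪ (Z \ A))) ∧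
      (∀ j ∈ Z, ∀ A ⊆ Z.erase j, Ind N (insert x0 (A.image y ∪ (Z.erase j \ A)))) := by
  classical
  obtain ⟨j0, hj0⟩ : Z.Nonempty := card_pos.1 (by omega)
  obtain ⟨μ₀, hμ₀⟩ := ((hcfg j0 hj0).ind x0 hx0).exists_mat
  have hν : ∀ j ∈ Z, ∃ ν, Mat N (insert x0 (Z.erase j)) ν ∧
      ∀ w ∉ JH, ∀ J, w ∈ ex N ν J ↔ w ∈ ex N μ₀ J := by
    intro j hj
    obtain ⟨μ, hμ⟩ := ((hcfg j hj).ind x0 hx0).exists_mat
    exact (hcfg j hj).glue (hcfg j0 hj0) hx0 hμ hμ₀
  choose! ν hν1 hν2 using hν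
  have hνS : ∀ j ∈ Z, Mat N (Z.erase j) (ν j) := fun j hj => (hν1 j hj).mono (subset_insert _ _)
  have h0 := hcfg j0 hj0
  have hμ := hνS j0 hj0
  -- independence facts
  have third : ∀ i ∈ Z, ∀ l ∈ Z, ∃ j ∈ Z, j ≠ i ∧ j ≠ l := by
    intro i hiZ l hlZ
    by_contra hcon
    push Not at hcon
    have : Z ⊆ {i, l} := by
      intro j hj
      rw [mem_insert, mem_singleton]
      by_cases hji : j = i
      · exact Or.inl hji
      · exact Or.inr (hcon j hj hji)
    have := (card_le_card this).trans card_le_two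
    omega
  have ind3 : ∀ i ∈ Z, ∀ l ∈ Z, ∀ x ∈ C, Ind N {i, l, x} := by
    intro i hiZ l hlZ x hx
    obtain ⟨j, hj, hji, hjl⟩ := third i hiZ l hlZ
    apply ((hcfg j hj).ind x hx).mono
    intro w hw
    rw [mem_insert, mem_insert, mem_singleton] at hw
    rcases hw with rfl | rfl | rfl
    · exact mem_insert_of_mem (mem_erase.2 ⟨hji.symm, hiZ⟩)
    · exact mem_insert_of_mem (mem_erase.2 ⟨hjl.symm, hlZ⟩)
    · exact mem_insert_self _ _
  have ind1 : ∀ i ∈ Z, Ind N {i} := by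
    intro i hiZ
    exact (ind3 i hiZ i hiZ x0 hx0).mono (by
      rw [singleton_subset_iff]; exact mem_insert_self _ _)
  have ind2 : ∀ i ∈ Z, ∀ l ∈ Z, Ind N {i, l} := by
    intro i hiZ l hlZ
    apply (ind3 i hiZ l hlZ x0 hx0).mono
    intro w hw
    rw [mem_insert, mem_singleton] at hw
    rcases hw with rfl | rfl
    · exact mem_insert_self _ _
    · exact mem_insert_of_mem (mem_insert_self _ _)
  have hCZ : ∀ x ∈ C, x ∉ JH := fun x hx => h0.notMem_JH hx
  have card3 : ∀ i ∈ Z, ∀ l ∈ Z, i ≠ l → ∀ x ∈ C, ({i, l, x} : Finset W).card = 3 := by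
    intro i hiZ l hlZ hne x hx
    rw [card_eq_three]
    refine ⟨i, l, x, hne, ?_, ?_, rfl⟩
    · rintro rfl; exact hCZ _ hx (hZ hiZ)
    · rintro rfl; exact hCZ _ hx (hZ hlZ)
  -- other elements of Z are not on the line
  have hnotL : ∀ i ∈ Z, ∀ l ∈ Z, l ≠ i → l ∉ L i := by
    intro i hiZ l hlZ hne hl
    have h1 := (ind3 i hiZ l hlZ (p i) (hp i hiZ)).card_le (J := L i) (by
      intro w hw
      rw [mem_insert, mem_insert, mem_singleton] at hw
      rcases hw with rfl | rfl | rfl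
      · exact hi _ hiZ
      · exact hl
      · exact hpL i hiZ)
    rw [card3 i hiZ l hlZ hne.symm _ (hp i hiZ), hL i hiZ] at h1
    norm_num at h1
  have hline1 : ∀ i ∈ Z, cc N (L i ∩ JH) = 1 := fun i hiZ =>
    h0.cc_line (hp i hiZ) (hpL i hiZ) (hZ hiZ) (hi i hiZ) (ind1 i hiZ) (hL i hiZ)
  have hexit : ∀ i ∈ Z, ∃ e, ex N (ν j0) (L i) \ JH = {e} := fun i hiZ =>
    h0.line_exit hμ (hp i hiZ) (hpL i hiZ) (hZ hiZ) (hi i hiZ) (ind1 i hiZ) (hL i hiZ)
  choose! e he using hexit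
  have heJ : ∀ j ∈ Z, ∀ i ∈ Z, ex N (ν j) (L i) \ JH = {e i} := by
    intro j hj i hiZ
    rw [← he i hiZ]
    ext w
    rw [mem_sdiff, mem_sdiff]
    constructor
    · rintro ⟨h1, h2⟩
      exact ⟨(hν2 j0 hj0 w h2 _).2 ((hν2 j hj w h2 _).1 h1), h2⟩
    · rintro ⟨h1, h2⟩
      exact ⟨(hν2 j hj w h2 _).2 ((hν2 j0 hj0 w h2 _).1 h1), h2⟩
  have hemem : ∀ i ∈ Z, e i ∈ ex N (ν j0) (L i) ∧ e i ∉ JH := by
    intro i hiZ
    have : e i ∈ ex N (ν j0) (L i) \ JH := by rw [he i hiZ]; exact mem_singleton_self _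
    exact mem_sdiff.1 this
  have hbig : ∀ i ∈ Z, ∃ G ⊆ L i, e i ∈ G ∧ cc N G = 1 ∧
      ∀ G' ⊆ L i, e i ∈ G' → cc N G' ≤ 1 → G' ⊆ G := fun i hiZ =>
    hμ.exists_big (hemem i hiZ).1
  choose! G hGL heG hG1 hGmax using hbig
  -- choice of y
  have hy : ∀ i ∈ Z, ∃ y, (y = p i ∨ y = p' i) ∧ y ∈ L i ∧ y ∉ G i ∧ y ∈ C := by
    intro i hiZ
    by_cases h1 : p i ∈ G i
    · refine ⟨p' i, Or.inr rfl, hpL' i hiZ, ?_, hp' i hiZ⟩
      intro h2
      have := hLG i hiZ (G i) (hGL i hiZ) h1 h2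
      rw [hG1 i hiZ] at this
      norm_num at this
    · exact ⟨p i, Or.inl rfl, hpL i hiZ, h1, hp i hiZ⟩
  choose! y hy1 hyL hyG hyC using hy
  set T : W → Finset W := fun i => L i \ G i with hT
  have hTd : ∀ i ∈ Z, ∀ l ∈ Z, i ≠ l → Disjoint (T i) (T l) := by
    intro i hiZ l hlZ hne
    rw [disjoint_left]
    intro w hwi hwl
    rw [hT, mem_sdiff] at hwi hwl
    have h1 := (ind3 i hiZ l hlZ (p i) (hp i hiZ)).card_le (J := L i ∪ L l) (by
      intro w hw
      rw [mem_insert, mem_insert, mem_singleton] at hw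
      rcases hw with rfl | rfl | rfl
      · exact mem_union_left _ (hi _ hiZ)
      · exact mem_union_right _ (hi _ hlZ)
      · exact mem_union_left _ (hpL i hiZ))
    rw [card3 i hiZ l hlZ hne _ (hp i hiZ)] at h1
    have h2 := cc_submod (N := N) (L i) (L l)
    rw [hL i hiZ, hL l hlZ] at h2
    push_cast at h1
    have h3 : cc N (L i ∩ L l) ≤ 1 := by omega
    have aux : ∀ a ∈ Z, ∀ J ⊆ L a, w ∈ J → w ∉ G a →
        cc N (G a ∩ J) + 2 ≤ 1 + cc N J := by
      intro a ha J hJ hwJ hwa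
      have h4 := cc_submod (N := N) (G a) J
      rw [hG1 a ha] at h4
      have h5 : 2 ≤ cc N (G a ∪ J) := by
        by_contra hlt
        have h6 := hGmax a ha (G a ∪ J) (union_subset (hGL a ha) hJ)
          (mem_union_left _ (heG a ha)) (by omega)
        exact hwa (h6 (mem_union_right _ hwJ))
      omega
    have h6 := aux i hiZ (L i ∩ L l) inter_subset_left (mem_inter.2 ⟨hwi.1, hwl.1⟩) hwi.2
    have h7 := aux l hlZ (L i ∩ L l) inter_subset_right (mem_inter.2 ⟨hwi.1, hwl.1⟩) hwl.2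
    have h8 := hμ.cc_nonneg (G i ∩ (L i ∩ L l))
    have h9 := hμ.cc_nonneg (G l ∩ (L i ∩ L l))
    have h10 := hμ.card_ex (L i ∩ L l)
    obtain ⟨v, hv⟩ := card_pos.1 (show 0 < (ex N (ν j0) (L i ∩ L l)).card by omega)
    have noG : ∀ a, cc N (G a ∩ (L i ∩ L l)) = 0 → v ∉ G a := by
      intro a ha hva
      have h11 : v ∈ ex N (ν j0) (G a ∩ (L i ∩ L l)) :=
        ex_mono inter_subset_right (mem_inter.2 ⟨hva, ex_sub hv⟩) hv
      have h12 := hμ.card_ex (G a ∩ (L i ∩ L l))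
      rw [ha] at h12
      have h13 := card_pos.2 ⟨v, h11⟩
      omega
    rcases h0.cross hμ (hZ hiZ) (hi i hiZ) (hZ hlZ) (hi l hlZ) hne (ind2 i hiZ l hlZ)
      (hline1 i hiZ) (hline1 l hlZ) (he i hiZ) (he l hlZ) hv with rfl | rfl
    · exact noG i (by omega) (heG i hiZ)
    · exact noG l (by omega) (heG l hlZ)
  -- the key exit property
  have star : ∀ j ∈ Z, ∀ i ∈ Z, i ≠ j → ∀ J, y i ∈ J → ∃ t ∈ ex N (ν j) J, t ∈ T i := by
    intro j hj i hiZ hne J hyJ
    have h1 : 2 ≤ cc N (G i ∪ (J ∩ L i)) := by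
      by_contra hlt
      have h6 := hGmax i hiZ (G i ∪ (J ∩ L i)) (union_subset (hGL i hiZ) inter_subset_right)
        (mem_union_left _ (heG i hiZ)) (by omega)
      exact hyG i hiZ (h6 (mem_union_right _ (mem_inter.2 ⟨hyJ, hyL i hiZ⟩)))
    have h2 := cc_submod (N := N) (G i) (J ∩ L i)
    rw [hG1 i hiZ] at h2
    have h3 := (hνS j hj).card_ex (J ∩ L i)
    have h4 := (hνS j hj).card_ex (G i ∩ (J ∩ L i))
    have h5 : ∃ v ∈ ex N (ν j) (J ∩ L i), v ∉ G i := by
      by_contra hcon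
      push Not at hcon
      have h6 : ex N (ν j) (J ∩ L i) ⊆ ex N (ν j) (G i ∩ (J ∩ L i)) := by
        intro v hv
        exact ex_mono inter_subset_right (mem_inter.2 ⟨hcon v hv, ex_sub hv⟩) hv
      have h7 := card_le_card h6
      omega
    obtain ⟨v, hv, hvG⟩ := h5
    have hvL := (mem_inter.1 (ex_sub hv)).2
    have hvJ := (mem_inter.1 (ex_sub hv)).1
    refine ⟨v, ?_, mem_sdiff.2 ⟨hvL, hvG⟩⟩
    rcases (hνS j hj).ex_inter hv with h6 | h6
    · exact h6
    · by_cases hvH : v ∈ JH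
      · have h7 : v ∈ ex N (ν j) (L i ∩ JH) := ((hcfg j hj).ex_inside (hνS j hj)).2 ⟨h6, hvH⟩
        have hij : i ∈ Z.erase j := mem_erase.2 ⟨hne, hiZ⟩
        have h8 : i ∈ ex N (ν j) (L i ∩ JH) :=
          (hνS j hj).sink_ex hij (mem_inter.2 ⟨hi i hiZ, hZ hiZ⟩)
        have h9 := (hνS j hj).card_ex (L i ∩ JH)
        rw [hline1 i hiZ] at h9
        have h10 : v = i := card_le_one.1 (by omega) _ h7 _ h8
        rw [h10]
        exact (hνS j hj).sink_ex hij (h10 ▸ hvJ)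
      · have h7 : v ∈ ex N (ν j) (L i) \ JH := mem_sdiff.2 ⟨h6, hvH⟩
        rw [heJ j hj i hiZ, mem_singleton] at h7
        exact absurd (heG i hiZ) (h7 ▸ hvG)
  -- sinks are not in T
  have hx0T : ∀ i ∈ Z, x0 ∉ T i := by
    intro i hiZ hc
    rw [hT, mem_sdiff] at hc
    have h1 : x0 ∈ ex N (ν j0) (L i) \ JH :=
      mem_sdiff.2 ⟨(hν1 j0 hj0).sink_ex (mem_insert_self _ _) hc.1, hCZ x0 hx0⟩
    rw [he i hiZ, mem_singleton] at h1
    exact hc.2 (h1 ▸ heG i hiZ)
  have hZT : ∀ i ∈ Z, ∀ l ∈ Z, l ≠ i → l ∉ T i := by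
    intro i hiZ l hlZ hne hc
    rw [hT, mem_sdiff] at hc
    exact hnotL i hiZ l hlZ hne hc.1
  have hyT : ∀ i ∈ Z, y i ∈ T i := fun i hiZ => mem_sdiff.2 ⟨hyL i hiZ, hyG i hiZ⟩
  refine ⟨y, hy1, ?_, ?_, ?_, ?_⟩
  · intro i hiZ l hlZ hne hc
    exact disjoint_left.1 (hTd i hiZ l hlZ hne) (hyT i hiZ) (hc ▸ hyT l hlZ)
  · intro i hiZ hc
    exact hx0T i hiZ (hc ▸ hyT i hiZ)
  · -- (B1)
    intro A hA hAne J
    set P := (Z \ A) ∩ J with hPdef
    set AJ := A.filter (fun i => y i ∈ J) with hAJ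
    have hAJA : AJ ⊆ A := filter_subset _ _
    have hle : ((A.image y ∪ (Z \ A)) ∩ J).card ≤ P.card + AJ.card := by
      have h1 : (A.image y ∪ (Z \ A)) ∩ J ⊆ P ∪ AJ.image y := by
        intro w hw
        rw [mem_inter, mem_union, mem_image] at hw
        rw [mem_union]
        rcases hw.1 with ⟨i, hiA, rfl⟩ | h2
        · exact Or.inr (mem_image_of_mem _ (mem_filter.2 ⟨hiA, hw.2⟩))
        · exact Or.inl (mem_inter.2 ⟨h2, hw.2⟩)
      exact (card_le_card h1).trans ((card_union_le _ _).trans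
        (Nat.add_le_add_left card_image_le _))
    have hPZ : ∀ j ∈ A, P ⊆ ex N (ν j) J := by
      intro j hj w hw
      rw [hPdef, mem_inter, mem_sdiff] at hw
      refine (hνS j (hA hj)).sink_ex (mem_erase.2 ⟨?_, hw.1.1⟩) hw.2
      rintro rfl
      exact hw.1.2 hj
    have hPT : ∀ i ∈ A, ∀ q ∈ P, q ∉ T i := by
      intro i hiA q hq
      rw [hPdef, mem_inter, mem_sdiff] at hq
      refine hZT i (hA hiA) q hq.1.1 ?_
      rintro rfl
      exact hq.1.2 hiA
    have hgoal : P.card + AJ.card ≤ cc N J → (((A.image y ∪ (Z \ A)) ∩ J).card : ℤ) ≤ cc N J := by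
      intro h1
      have : (((A.image y ∪ (Z \ A)) ∩ J).card : ℤ) ≤ (P.card : ℤ) + AJ.card := by
        exact_mod_cast hle
      omega
    apply hgoal
    by_cases hAeq : AJ = A
    · obtain ⟨a, ha⟩ := hAne
      have haJ : y a ∈ J := by
        rw [← hAeq, hAJ, mem_filter] at ha; exact ha.2
      obtain ⟨t, ht, htH⟩ := h0.exists_outside hμ (hyC a (hA ha)) haJ
      have htν : ∀ j ∈ Z, t ∈ ex N (ν j) J := by
        intro j hj
        exact (hν2 j hj t htH J).2 ((hν2 j0 hj0 t htH J).1 ht)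
      have hyAJ : ∀ i ∈ A, y i ∈ J := by
        intro i hiA
        rw [← hAeq, hAJ, mem_filter] at hiA; exact hiA.2
      by_cases hcase : ∃ i ∈ A, t ∈ T i
      · obtain ⟨i, hiA, htT⟩ := hcase
        have h1 := count_exits (ex N (ν i) J) P A T (hPZ i hiA) (by
            intro l hl
            by_cases hli : l = i
            · subst hli; exact ⟨t, htν l (hA hl), htT⟩
            · exact star i (hA hiA) l (hA hl) hli J (hyAJ l hl))
          (fun b hb l hl hne => hTd b (hA hb) l (hA hl) hne) hPT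
        rw [← (hνS i (hA hiA)).card_ex J, hAeq]
        exact_mod_cast h1
      · push Not at hcase
        have h1 := count_exits (ex N (ν a) J) (insert t P) (A.erase a) T (by
            intro w hw
            rcases mem_insert.1 hw with rfl | hw
            · exact htν a (hA ha)
            · exact hPZ a ha hw) (by
            intro l hl
            exact star a (hA ha) l (hA (mem_of_mem_erase hl)) (ne_of_mem_erase hl) J
              (hyAJ l (mem_of_mem_erase hl)))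
          (fun b hb l hl hne => hTd b (hA (mem_of_mem_erase hb)) l (hA (mem_of_mem_erase hl)) hne)
          (by
            intro l hl q hq
            rcases mem_insert.1 hq with rfl | hq
            · exact hcase l (mem_of_mem_erase hl)
            · exact hPT l (mem_of_mem_erase hl) q hq)
        have h2 : t ∉ P := by
          intro hc
          rw [hPdef, mem_inter, mem_sdiff] at hc
          exact htH (hZ hc.1.1)
        rw [card_insert_of_notMem h2, card_erase_of_mem ha] at h1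
        have h3 : 0 < A.card := card_pos.2 ⟨a, ha⟩
        rw [← (hνS a (hA ha)).card_ex J, hAeq]
        have h4 : P.card + A.card ≤ (ex N (ν a) J).card := by omega
        exact_mod_cast h4
    · obtain ⟨j, hjA, hjJ⟩ : ∃ j ∈ A, y j ∉ J := by
        by_contra hcon
        push Not at hcon
        exact hAeq (filter_true_of_mem hcon)
      have h1 := count_exits (ex N (ν j) J) P AJ T (hPZ j hjA) (by
          intro l hl
          rw [hAJ, mem_filter] at hl
          refine star j (hA hjA) l (hA hl.1) ?_ J hl.2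
          rintro rfl
          exact hjJ hl.2)
        (fun b hb l hl hne => hTd b (hA (hAJA hb)) l (hA (hAJA hl)) hne)
        (fun l hl => hPT l (hAJA hl))
      rw [← (hνS j (hA hjA)).card_ex J]
      exact_mod_cast h1
  · -- (B2)
    intro j hj A hA J
    have hAZ : A ⊆ Z := hA.trans (erase_subset _ _)
    have hAj : ∀ i ∈ A, i ≠ j := fun i hiA => ne_of_mem_erase (hA hiA)
    set P := (insert x0 (Z.erase j \ A)) ∩ J with hPdef
    set AJ := A.filter (fun i => y i ∈ J) with hAJ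
    have hAJA : AJ ⊆ A := filter_subset _ _
    have hle : ((insert x0 (A.image y ∪ (Z.erase j \ A))) ∩ J).card ≤ P.card + AJ.card := by
      have h1 : (insert x0 (A.image y ∪ (Z.erase j \ A))) ∩ J ⊆ P ∪ AJ.image y := by
        intro w hw
        rw [mem_inter, mem_insert, mem_union, mem_image] at hw
        rw [mem_union]
        rcases hw.1 with rfl | ⟨i, hiA, rfl⟩ | h2
        · exact Or.inl (mem_inter.2 ⟨mem_insert_self _ _, hw.2⟩)
        · exact Or.inr (mem_image_of_mem _ (mem_filter.2 ⟨hiA, hw.2⟩))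
        · exact Or.inl (mem_inter.2 ⟨mem_insert_of_mem h2, hw.2⟩)
      exact (card_le_card h1).trans ((card_union_le _ _).trans
        (Nat.add_le_add_left card_image_le _))
    have h1 := count_exits (ex N (ν j) J) P AJ T (by
        intro w hw
        rw [hPdef, mem_inter, mem_insert, mem_sdiff] at hw
        rcases hw.1 with rfl | h2
        · exact (hν1 j hj).sink_ex (mem_insert_self _ _) hw.2
        · exact (hν1 j hj).sink_ex (mem_insert_of_mem h2.1) hw.2) (by
        intro l hl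
        rw [hAJ, mem_filter] at hl
        exact star j hj l (hAZ hl.1) (hAj l hl.1) J hl.2)
      (fun b hb l hl hne => hTd b (hAZ (hAJA hb)) l (hAZ (hAJA hl)) hne) (by
        intro l hl q hq
        rw [hPdef, mem_inter, mem_insert, mem_sdiff] at hq
        rcases hq.1 with rfl | h2
        · exact hx0T l (hAZ (hAJA hl))
        · refine hZT l (hAZ (hAJA hl)) q (mem_of_mem_erase h2.1) ?_
          rintro rfl
          exact h2.2 (hAJA hl))
    have h2 : (((insert x0 (A.image y ∪ (Z.erase j \ A))) ∩ J).card : ℤ)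
        ≤ (ex N (ν j) J).card := by
      exact_mod_cast hle.trans h1
    rw [← (hνS j hj).card_ex J]
    exact h2

end Pool.Agent.Helper78.Gam
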