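import Mathlib
import Pool.Agent.Helper78.BRep

set_option autoImplicit false
set_option linter.unusedSectionVars false
set_option linter.unusedSimpArgs false

namespace Pool.Agent.Helper78

open Finset

theorem LL_sa : IsSelfAdjoint (LL ss) := by
  unfold LL
  rw [IsSelfAdjoint, star_sum]
  have h1 : ∀ i, star (1 - U (ss i)) = 1 - U (ss i)⁻¹ := fun i => by
    rw [star_sub, star_one, U_star]
  simp_rw [h1]
  -- pair up inverses
  have h2 : ∀ i : Option (Fin 3 × ZMod 5), (ss i)⁻¹ = ss (Option.map (fun x => (x.1, -x.2)) i) := by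
    intro i
    rcases i with _ | ⟨i, a⟩
    · change (tr sw)⁻¹ = tr sw
      rw [inv_eq_iff_mul_eq_one, ← map_mul, sw_sw, map_one]
    · change (ff (kk i a))⁻¹ = ff (kk i (-a))
      rw [← map_inv, kk_inv]
  simp_rw [h2]
  let φ : Option (Fin 3 × ZMod 5) ≃ Option (Fin 3 × ZMod 5) :=
    Equiv.optionCongr (Equiv.prodCongr (Equiv.refl _) (Equiv.neg (ZMod 5)))
  have h3 : ∀ i : Option (Fin 3 × ZMod 5), Option.map (fun x => (x.1, -x.2)) i = φ i := by
    intro i
    rcases i with _ | ⟨i, a⟩ <;> rfl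
  simp_rw [h3]
  exact Equiv.sum_comp φ (fun i => 1 - U (ss i))

/-- Half of the energy. -/
theorem rip_one_sub_U (σ : Equiv.Perm ℕ) (u : E2) :
    rip ((1 - U σ) u) ((1 - U σ) u) = 2 * rip ((1 - U σ) u) u := by
  have h1 : (1 - U σ) u = u - U σ u := rfl
  rw [h1]
  have h2 : rip (U σ u) (U σ u) = rip u u := by
    rw [rip_self, rip_self]
    congr 1
    exact Ulin_norm σ u
  simp only [rip_sub_left, rip_sub_right]
  rw [h2, rip_comm u (U σ u)]
  ring

theorem ker_inv (u : E2) (hu : LL ss u = 0) (i : Option (Fin 3 × ZMod 5)) : U (ss i) u = u := by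
  have h1 : LL ss u = ∑ i, (1 - U (ss i)) u := by
    unfold LL
    rw [_root_.sum_apply]
  have h2 : ∑ i, rip ((1 - U (ss i)) u) ((1 - U (ss i)) u) = 0 := by
    simp_rw [rip_one_sub_U]
    rw [← mul_sum]
    have h3 : ∑ i, rip ((1 - U (ss i)) u) u = rip (∑ i, (1 - U (ss i)) u) u := by
      unfold rip
      rw [sum_inner, Complex.re_sum]
    rw [h3, ← h1, hu]
    simp [rip]
  have h3 := (sum_eq_zero_iff_of_nonneg (fun i _ => rip_nonneg ((1 - U (ss i)) u))).1 h2 i (mem_univ i)
  rw [rip_self] at h3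
  have h4 := norm_eq_zero.1 (pow_eq_zero_iff (two_ne_zero) |>.1 h3)
  have h5 : (1 - U (ss i)) u = u - U (ss i) u := rfl
  rw [h5] at h4
  exact (sub_eq_zero.1 h4).symm

theorem ker_val (u : E2) (hu : LL ss u = 0) (i : Option (Fin 3 × ZMod 5)) (x : ℕ) :
    u (ss i x) = u x := by
  have h := ker_inv u hu i
  have h2 : (U (ss i) u) (ss i x) = u (ss i x) := by rw [h]
  rw [← h2, U_apply]
  exact congrArg (fun y => u y) (Equiv.symm_apply_apply (ss i) x)

theorem ker_val_CC (u : E2) (hu : LL ss u = 0) (g : PG) (hg : g ∈ CC) (x : ℕ) :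
    u (ff g x) = u x := by
  induction hg using Subgroup.closure_induction generalizing x with
  | mem y hy =>
    obtain ⟨i, a, rfl⟩ := hy
    exact ker_val u hu (some (i, a)) x
  | one => rw [map_one]; rfl
  | mul a b _ _ ha hb =>
    rw [map_mul]
    change u (ff a (ff b x)) = u x
    rw [ha, hb]
  | inv a _ ha =>
    have := ha (ff a⁻¹ x)
    rw [← this]
    rw [map_inv]
    exact congrArg (fun y => u y) (perm_apply_inv (ff a) x)

/-- The image of the group at level `N`. -/
noncomputable def ON (N : ℕ) : Subgroup (GG N) := CC.map (Pi.evalMonoidHom GG N)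

noncomputable instance (N : ℕ) : Fintype (ON N) := Fintype.ofFinite _

theorem ON_card (N : ℕ) : N + 1 ≤ Fintype.card (ON N) := by
  have h : Function.Injective (fun j : Fin (N + 1) =>
      (⟨gam j N, ⟨gam j, gam_mem j, rfl⟩⟩ : ON N)) := by
    intro i j hij
    by_contra hne
    apply gam_ne i j N (by omega) (by omega) (fun h => hne (Fin.ext h))
    exact congrArg Subtype.val hij
  have := Fintype.card_le_of_injective _ h
  simpa using this

/-- The test vector. -/
noncomputable def vN (N : ℕ) : E2 :=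
  ∑ g : ON N, (ev (ee ⟨N, false, (g : GG N)⟩) - ev (ee ⟨N, true, (g : GG N)⟩))

theorem inner_vN (N : ℕ) (u : E2) : inner ℂ (vN N) u =
    ∑ g : ON N, (u (ee ⟨N, false, (g : GG N)⟩) - u (ee ⟨N, true, (g : GG N)⟩)) := by
  unfold vN
  rw [sum_inner]
  apply sum_congr rfl
  intro g _
  rw [inner_sub_left, inner_ev_left, inner_ev_left]

theorem ev_apply (x y : ℕ) : (ev x) y = if x = y then (1 : ℂ) else 0 := by
  rw [← inner_ev_left, inner_ev_ev]

theorem vN_false (N : ℕ) (g : ON N) : (vN N) (ee ⟨N, false, (g : GG N)⟩) = 1 := by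
  classical
  rw [← inner_ev_left]
  unfold vN
  rw [inner_sum]
  rw [sum_eq_single g]
  · rw [inner_sub_right, inner_ev_ev, inner_ev_ev, if_pos rfl, if_neg]
    · norm_num
    · intro h; have := (ee_inj h).1; simp at this
  · intro g' _ hg
    rw [inner_sub_right, inner_ev_ev, inner_ev_ev, if_neg, if_neg, sub_zero]
    · intro h; have := (ee_inj h).1; simp at this
    · intro h; apply hg; exact Subtype.ext (ee_inj h).2
  · intro h; exact absurd (mem_univ _) h

theorem vN_true (N : ℕ) (g : ON N) : (vN N) (ee ⟨N, true, (g : GG N)⟩) = -1 := by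
  classical
  rw [← inner_ev_left]
  unfold vN
  rw [inner_sum]
  rw [sum_eq_single g]
  · rw [inner_sub_right, inner_ev_ev, inner_ev_ev, if_neg, if_pos rfl]
    · norm_num
    · intro h; have := (ee_inj h).1; simp at this
  · intro g' _ hg
    rw [inner_sub_right, inner_ev_ev, inner_ev_ev, if_neg, if_neg, sub_zero]
    · intro h; apply hg; exact Subtype.ext (ee_inj h).2
    · intro h; have := (ee_inj h).1; simp at this
  · intro h; exact absurd (mem_univ _) h

theorem vN_norm (N : ℕ) : ‖vN N‖ ^ 2 = 2 * Fintype.card (ON N) := by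
  rw [← rip_self]
  unfold rip
  rw [inner_vN]
  simp_rw [vN_false, vN_true]
  rw [sum_const, card_univ]
  simp
  ring

theorem U_vN (N : ℕ) (g : PG) (hg : g ∈ CC) : U (ff g) (vN N) = vN N := by
  have hgN : g N ∈ ON N := ⟨g, hg, rfl⟩
  conv_lhs => unfold vN
  rw [map_sum]
  simp_rw [map_sub, U_ev, ff_apply]
  unfold vN
  exact Equiv.sum_comp (Equiv.mulLeft (⟨g N, hgN⟩ : ON N))
    (fun g : ON N => (ev (ee ⟨N, false, (g : GG N)⟩) - ev (ee ⟨N, true, (g : GG N)⟩)))

theorem LL_vN (N : ℕ) : rip (LL ss (vN N)) (vN N) = 4 := by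
  have h1 : LL ss (vN N) = ∑ i, (vN N - U (ss i) (vN N)) := by
    unfold LL
    rw [_root_.sum_apply]
    rfl
  rw [Fintype.sum_option] at h1
  have h2 : ∀ i : Fin 3 × ZMod 5, vN N - U (ss (some i)) (vN N) = 0 := by
    intro i
    have := U_vN N (kk i.1 i.2) (kk_mem _ _)
    rw [sub_eq_zero]
    exact this.symm
  simp_rw [h2] at h1
  rw [sum_const_zero, add_zero] at h1
  -- the swap fixes all but the two connecting vertices
  have h3 : vN N - U (ss none) (vN N) = (2 : ℂ) • (ev (ee ⟨N, false, 1⟩) - ev (ee ⟨N, true, 1⟩)) := by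
    have e1 : vN N - U (ss none) (vN N) = ∑ g : ON N,
        ((ev (ee ⟨N, false, (g : GG N)⟩) - ev (ee ⟨N, true, (g : GG N)⟩))
        - (ev (ss none (ee ⟨N, false, (g : GG N)⟩)) - ev (ss none (ee ⟨N, true, (g : GG N)⟩)))) := by
      rw [sum_sub_distrib]
      unfold vN
      rw [map_sum]
      simp_rw [map_sub, U_ev]
    rw [e1, sum_eq_single (1 : ON N)]
    · rw [show ((1 : ON N) : GG N) = 1 from rfl, ss_none, ss_none, swf_one, swf_one]
      simp only [Bool.not_false, Bool.not_true]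
      rw [two_smul]; abel
    · intro g _ hg
      have hg' : (g : GG N) ≠ 1 := fun h => hg (Subtype.ext h)
      rw [ss_none, ss_none, swf_ne _ _ _ hg', swf_ne _ _ _ hg', sub_self]
    · intro h; exact absurd (mem_univ _) h
  rw [h1, h3]
  unfold rip
  rw [inner_smul_left, inner_sub_left, inner_ev_left, inner_ev_left]
  have a1 := vN_false N 1
  have a2 := vN_true N 1
  rw [show ((1 : ON N) : GG N) = 1 from rfl] at a1 a2
  rw [a1, a2]
  norm_num

theorem no_gap : ¬ ∃ c : ℝ, 0 < c ∧
    spectrum ℂ (LL ss) ⊆ {z : ℂ | z = 0 ∨ (z.im = 0 ∧ c ≤ z.re)} := by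
  rintro ⟨c, hc, hs⟩
  have key : ∀ N : ℕ, c * (2 * (N + 1)) ≤ 4 := by
    intro N
    have h1 := form_of_gap (LL ss) LL_sa c hc hs (vN N) (by
      intro u hu
      rw [← inner_conj_symm, inner_vN]
      have h2 : ∀ g : ON N, u (ee ⟨N, false, (g : GG N)⟩) - u (ee ⟨N, true, (g : GG N)⟩) = 0 := by
        intro g
        obtain ⟨k, hk, hkg⟩ := g.2
        have e1 : ∀ b, u (ee ⟨N, b, (g : GG N)⟩) = u (ee ⟨N, b, 1⟩) := by
          intro b
          have := ker_val_CC u hu k hk (ee ⟨N, b, 1⟩)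
          rw [ff_apply, mul_one] at this
          rw [← this, ← hkg]
          rfl
        have e2 : u (ee ⟨N, false, 1⟩) = u (ee ⟨N, true, 1⟩) := by
          have := ker_val u hu none (ee ⟨N, false, 1⟩)
          rw [ss_none, swf_one] at this
          exact this.symm
        rw [e1, e1, e2, sub_self]
      simp_rw [h2]
      simp)
    rw [vN_norm] at h1
    have h2 : (inner ℂ (LL ss (vN N)) (vN N)).re = 4 := LL_vN N
    rw [h2] at h1
    have h3 : ((N + 1 : ℕ) : ℝ) ≤ (Fintype.card (ON N) : ℝ) := by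
      exact_mod_cast ON_card N
    push_cast at h3
    nlinarith
  obtain ⟨N, hN⟩ := exists_nat_gt (4 / c)
  have h1 := key N
  have h2 : 4 < N * c := by rwa [div_lt_iff₀ hc] at hN
  nlinarith

end Pool.Agent.Helper78
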